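import Pool.Agent.K3h37.RP.Den
import Pool.Agent.Y697.C13.Main
import Pool.Agent.Y362.MH.Bad
import Pool.Agent.Y362.MH.Norm

/-!
# Almost all multihomogeneous forms are smooth
-/

set_option autoImplicit false

namespace Pool.Agent.K3h37.RP

open MvPolynomial
open Pool.Agent.Y716.M (Var monsM bl)
open Pool.Agent.Y697.C13 (mv dv)

/-- The hypersurface `f = 0` in a product of projective spaces is smooth. -/
def SmoothV {r : ℕ} {n : Fin r → ℕ} (f : MvPolynomial (Var n) ℤ) : Prop :=
  ∀ (K : Type) [Field K] [CharZero K] (x : Var n → K), (∀ i, bl x i ≠ 0) → aeval x f = 0 →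
    ∃ v, aeval x (pderiv v f) ≠ 0

section abs
variable {σ T F : Type} [Fintype σ] [Fintype T] [Fintype F]

/-- the coordinates which are not free are equal to one -/
def Nm (fr : F → σ) {R : Type} [One R] (x : σ → R) : Prop := ∀ s, (∀ v, fr v ≠ s) → x s = 1

/-- special monomials -/
structure Sp (e : T → σ →₀ ℕ) (A : T) (B : F → T) (fr : F → σ) : Prop where
  inj : Function.Injective B
  ne : ∀ v, B v ≠ A
  frinj : Function.Injective fr
  mA : ∀ (R : Type) [CommRing R] (x : σ → R), Nm fr x → mv x (e A) = 1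
  dA : ∀ (R : Type) [CommRing R] (x : σ → R) (v : F), dv x (fr v) (e A) = 0
  dB : ∀ (R : Type) [CommRing R] (x : σ → R) (v : F), Nm fr x → dv x (fr v) (e (B v)) = 1
  dB' : ∀ (R : Type) [CommRing R] (x : σ → R) (v v' : F), v ≠ v' →
    dv x (fr v) (e (B v')) = 0

variable (e : T → σ →₀ ℕ) (A : T) (B : F → T) (fr : F → σ)

/-- the monomial is not special -/
def Ns (t : T) : Prop := t ≠ A ∧ ∀ v, t ≠ B v

open scoped Classical in
/-- the coefficients that are not special -/
noncomputable def uu {R : Type} [CommRing R] (c : T → R) (t : T) : R :=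
  if Ns A B t then c t else 0

/-- the solution of the equations for the derivatives -/
noncomputable def gB {R : Type} [CommRing R] (u : T → R) (x : σ → R) (v : F) : R :=
  - ∑ t, u t * dv x (fr v) (e t)

open scoped Classical in
/-- first step -/
noncomputable def c1 {R : Type} [CommRing R] (u : T → R) (x : σ → R) (t : T) : R :=
  u t + ∑ v, if t = B v then gB e fr u x v else 0

open scoped Classical in
/-- second step -/
noncomputable def c2 {R : Type} [CommRing R] (u : T → R) (x : σ → R) (t : T) : R :=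
  c1 e B fr u x t + if t = A then - ∑ t', c1 e B fr u x t' * mv x (e t') else 0

section nat
variable {R S : Type} [CommRing R] [CommRing S] (g : R →+* S) (u : T → R) (x : σ → R)

lemma map_gB (v : F) : g (gB e fr u x v) = gB e fr (fun t => g (u t)) (fun s => g (x s)) v := by
  unfold gB
  simp only [map_neg, map_sum, map_mul, Pool.Agent.Y697.C13.map_dv]

lemma map_c1 (t : T) : g (c1 e B fr u x t) =
    c1 e B fr (fun t => g (u t)) (fun s => g (x s)) t := by
  unfold c1
  rw [map_add, map_sum]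
  congr 1
  refine Finset.sum_congr rfl fun i _ => ?_
  split_ifs
  · exact map_gB e fr g u x i
  · exact map_zero g

lemma map_c2 (t : T) : g (c2 e A B fr u x t) =
    c2 e A B fr (fun t => g (u t)) (fun s => g (x s)) t := by
  unfold c2
  rw [map_add, map_c1]
  congr 1
  split_ifs
  · simp only [map_neg, map_sum, map_mul, Pool.Agent.Y697.C13.map_mv, map_c1]
  · exact map_zero g

end nat

variable {e A B fr} (hS : Sp e A B fr)
include hS

section key
variable {R : Type} [CommRing R] (c : T → R) (x : σ → R)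

open scoped Classical in
lemma decomp (t : T) : c t = uu A B c t + (∑ v, if t = B v then c t else 0) +
    (if t = A then c t else 0) := by
  unfold uu
  by_cases h1 : t = A
  · have h2 : ∀ v, ¬ t = B v := fun v hv => hS.ne v (hv.symm.trans h1)
    have h3 : ¬ Ns A B t := fun h => h.1 h1
    rw [if_neg h3, if_pos h1, Finset.sum_eq_zero (fun i _ => if_neg (h2 i))]
    ring
  · rw [if_neg h1]
    by_cases h2 : ∃ v, t = B v
    · obtain ⟨v, hv⟩ := h2
      have h3 : ¬ Ns A B t := fun h => h.2 v hv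
      rw [if_neg h3, Finset.sum_eq_single v, if_pos hv]
      · ring
      · intro v' _ hne
        exact if_neg fun h => hne (hS.inj (h.symm.trans hv))
      · intro h
        exact absurd (Finset.mem_univ _) h
    · have h3 : Ns A B t := ⟨h1, fun v hv => h2 ⟨v, hv⟩⟩
      rw [if_pos h3, Finset.sum_eq_zero (fun i _ => if_neg (fun h => h2 ⟨i, h⟩))]
      ring

lemma gB_eq (hx : Nm fr x) (hG : ∀ v, ∑ t, c t * dv x (fr v) (e t) = 0) (v : F) :
    gB e fr (uu A B c) x v = c (B v) := by
  classical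
  have h2 : ∀ t, c t * dv x (fr v) (e t) = uu A B c t * dv x (fr v) (e t) +
      if t = B v then c t else 0 := by
    intro t
    conv_lhs => rw [decomp hS c t]
    rw [add_mul, add_mul]
    have h3 : (if t = A then c t else 0) * dv x (fr v) (e t) = 0 := by
      split_ifs with h
      · rw [h, hS.dA R x v, mul_zero]
      · rw [zero_mul]
    rw [h3, add_zero]
    congr 1
    rw [Finset.sum_mul, Finset.sum_eq_single v]
    · split_ifs with h
      · rw [h, hS.dB R x v hx, mul_one]
      · rw [zero_mul]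
    · intro v' _ hne
      split_ifs with h
      · rw [h, hS.dB' R x v v' (Ne.symm hne), mul_zero]
      · rw [zero_mul]
    · intro h
      exact absurd (Finset.mem_univ _) h
  have h4 := hG v
  rw [Finset.sum_congr rfl (fun t _ => h2 t), Finset.sum_add_distrib,
    Finset.sum_ite_eq' Finset.univ (B v), if_pos (Finset.mem_univ _)] at h4
  unfold gB
  linear_combination -h4

lemma c2_eq (hx : Nm fr x) (hE : ∑ t, c t * mv x (e t) = 0)
    (hG : ∀ v, ∑ t, c t * dv x (fr v) (e t) = 0) (t : T) :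
    c2 e A B fr (uu A B c) x t = c t := by
  classical
  have h1 : ∀ t, c1 e B fr (uu A B c) x t = c t - (if t = A then c t else 0) := by
    intro t
    have h2 := decomp hS c t
    have h3 : (∑ v, if t = B v then gB e fr (uu A B c) x v else 0) =
        ∑ v, if t = B v then c t else 0 := by
      refine Finset.sum_congr rfl fun v _ => ?_
      split_ifs with h
      · rw [gB_eq hS c x hx hG v, h]
      · rfl
    unfold c1
    rw [h3]
    linear_combination -h2
  unfold c2
  have h4 : ∑ t', c1 e B fr (uu A B c) x t' * mv x (e t') = - c A := by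
    simp only [h1, sub_mul, Finset.sum_sub_distrib]
    rw [hE, zero_sub]
    congr 1
    rw [Finset.sum_eq_single A]
    · rw [if_pos rfl, hS.mA R x hx, mul_one]
    · intro b _ hb
      rw [if_neg hb, zero_mul]
    · intro h
      exact absurd (Finset.mem_univ _) h
  rw [h4, h1]
  split_ifs with h
  · rw [h]
    ring
  · ring

end key

open scoped Classical in
/-- A nonzero polynomial in the coefficients vanishing at all the singular polynomials. -/
theorem exists_D_abs : ∃ D : MvPolynomial T ℚ, D ≠ 0 ∧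
    ∀ (K : Type) [Field K] [CharZero K] (c : T → K) (x : σ → K), Nm fr x →
      ∑ t, c t * mv x (e t) = 0 → (∀ v, ∑ t, c t * dv x (fr v) (e t) = 0) →
      aeval c D = 0 := by
  let τ : Type := {t : T // Ns A B t} ⊕ F
  have hcard : Fintype.card τ < Fintype.card T := by
    have h1 : Fintype.card (Option τ) ≤ Fintype.card T := by
      refine Fintype.card_le_of_injective
        (fun o : Option τ => match o with
          | none => A
          | some (Sum.inl t) => t.1
          | some (Sum.inr v) => B v) ?_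
      intro a b hab
      rcases a with _ | (a | a) <;> rcases b with _ | (b | b) <;> simp only at hab
      · rfl
      · exact absurd hab.symm b.2.1
      · exact absurd hab.symm (hS.ne b)
      · exact absurd hab a.2.1
      · rw [Subtype.ext hab]
      · exact absurd hab (a.2.2 b)
      · exact absurd hab (hS.ne a)
      · exact absurd hab.symm (b.2.2 a)
      · rw [hS.inj hab]
    rw [Fintype.card_option] at h1
    omega
  let UU : T → MvPolynomial τ ℚ := fun t => if h : Ns A B t then X (Sum.inl ⟨t, h⟩) else 0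
  let XX : σ → MvPolynomial τ ℚ := fun s =>
    if h : ∃ v, fr v = s then X (Sum.inr h.choose) else 1
  let φ : MvPolynomial T ℚ →ₐ[ℚ] MvPolynomial τ ℚ := aeval (c2 e A B fr UU XX)
  obtain ⟨D, hD0, hD⟩ := Pool.Agent.Y697.C13.exists_ker hcard φ
  refine ⟨D, hD0, fun K _ _ c x hx hE hG => ?_⟩
  let pt : τ → K := Sum.elim (fun t => c t.1) (fun v => x (fr v))
  have hU : ∀ t, aeval pt (UU t) = uu A B c t := by
    intro t
    unfold uu
    by_cases h : Ns A B t
    · rw [if_pos h]
      simp only [UU, dif_pos h, aeval_X]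
      rfl
    · rw [if_neg h]
      simp only [UU, dif_neg h, map_zero]
  have hX : ∀ s, aeval pt (XX s) = x s := by
    intro s
    by_cases h : ∃ v, fr v = s
    · simp only [XX, dif_pos h, aeval_X]
      show x (fr h.choose) = x s
      rw [h.choose_spec]
    · simp only [XX, dif_neg h, map_one]
      exact (hx s fun v hv => h ⟨v, hv⟩).symm
  have h1 : (aeval pt).comp φ = aeval c := by
    apply MvPolynomial.algHom_ext
    intro t
    rw [AlgHom.comp_apply]
    show aeval pt (aeval (c2 e A B fr UU XX) (X t)) = _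
    rw [aeval_X, aeval_X]
    have h2 := map_c2 e A B fr ((aeval pt : MvPolynomial τ ℚ →ₐ[ℚ] K) :
      MvPolynomial τ ℚ →+* K) UU XX t
    rw [RingHom.coe_coe] at h2
    rw [h2]
    simp only [hU, hX]
    exact c2_eq hS c x hx hE hG t
  rw [← h1, AlgHom.comp_apply, hD, map_zero]

end abs

/-! ## Multihomogeneous forms -/

section
variable {r : ℕ} {n d : Fin r → ℕ}

open Pool.Agent.Y362.MH (Fr mk mk_none mk_some mk_mem mk_inj)

lemma nm_bl {ρ : ∀ i, Fin (n i + 1)} {R : Type} [One R] {x : Var n → R}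
    (hx : Nm (fun v : Fr ρ => v.1) x) (a : Var n) (ha : a.2 = ρ a.1) : x a = 1 :=
  hx a fun v hv => v.2 (by
    have hv' : v.1 = a := hv
    rw [hv']
    exact ha)

lemma mv_one {ρ : ∀ i, Fin (n i + 1)} {R : Type} [CommRing R] {x : Var n → R}
    (hx : Nm (fun v : Fr ρ => v.1) x) (s : Var n →₀ ℕ)
    (hs : ∀ a : Var n, a.2 ≠ ρ a.1 → s a = 0) : mv x s = 1 := by
  unfold mv
  refine Finset.prod_eq_one fun a _ => ?_
  by_cases ha : a.2 = ρ a.1
  · rw [nm_bl hx a ha, one_pow]
  · rw [hs a ha, pow_zero]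

theorem sp_M (hd : ∀ i, 1 ≤ d i) (ρ : ∀ i, Fin (n i + 1)) :
    Sp (fun t : monsM n d => (t : Var n →₀ ℕ)) ⟨mk d ρ none, mk_mem hd ρ none⟩
      (fun v : Fr ρ => ⟨mk d ρ (some v), mk_mem hd ρ (some v)⟩) (fun v : Fr ρ => v.1) where
  inj := by
    intro v v' h
    have h0 : mk d ρ (some v) = mk d ρ (some v') := congrArg Subtype.val h
    exact Option.some.inj (mk_inj d ρ h0)
  ne := by
    intro v h
    have h0 : mk d ρ (some v) = mk d ρ none := congrArg Subtype.val h
    exact absurd (mk_inj d ρ h0) (by simp)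
  frinj := fun v v' h => Subtype.ext h
  mA := by
    intro R _ x hx
    exact mv_one hx _ fun a ha => by rw [mk_none, if_neg ha]
  dA := by
    intro R _ x v
    unfold dv
    show _ * ((mk d ρ none v.1 : ℕ) : R) = 0
    rw [mk_none, if_neg v.2, Nat.cast_zero, mul_zero]
  dB := by
    intro R _ x v hx
    unfold dv
    show mv x (mk d ρ (some v) - Finsupp.single v.1 1) * ((mk d ρ (some v) v.1 : ℕ) : R) = 1
    rw [mk_some, if_pos rfl, Nat.cast_one, mul_one]
    refine mv_one hx _ fun a ha => ?_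
    rw [Finsupp.tsub_apply, mk_some]
    by_cases hab : a = v.1
    · subst hab
      rw [if_pos rfl, Finsupp.single_eq_same]
    · rw [if_neg hab, if_neg ha, Nat.zero_sub]
  dB' := by
    intro R _ x v v' hne
    unfold dv
    show _ * ((mk d ρ (some v') v.1 : ℕ) : R) = 0
    rw [mk_some, if_neg (fun h => hne (Subtype.ext h)), if_neg v.2, Nat.cast_zero, mul_zero]

lemma eq_sumM {f : MvPolynomial (Var n) ℤ}
    (hf : ∀ s ∈ f.support, ∀ i : Fin r, ∑ j : Fin (n i + 1), s ⟨i, j⟩ = d i) :
    f = ∑ t : monsM n d, monomial (t : Var n →₀ ℕ) (f.coeff t) := by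
  classical
  have h : f = ∑ m ∈ monsM n d, monomial m (f.coeff m) := by
    apply MvPolynomial.ext
    intro m
    rw [coeff_sum]
    simp only [coeff_monomial]
    rw [Finset.sum_ite_eq']
    split_ifs with h
    · rfl
    · by_contra hne
      apply h
      rw [Pool.Agent.Y716.M.mem_monsM]
      exact hf m (mem_support_iff.2 hne)
  conv_lhs => rw [h]
  rw [← Finset.sum_coe_sort]

lemma aeval_fM {K : Type} [CommRing K] {f : MvPolynomial (Var n) ℤ}
    (hf : ∀ s ∈ f.support, ∀ i : Fin r, ∑ j : Fin (n i + 1), s ⟨i, j⟩ = d i) (x : Var n → K) :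
    aeval x f = ∑ t : monsM n d, ((f.coeff t : ℤ) : K) * mv x (t : Var n →₀ ℕ) := by
  conv_lhs => rw [eq_sumM hf]
  rw [map_sum]
  exact Finset.sum_congr rfl fun m _ => Pool.Agent.Y697.C13.aeval_mon x _ _

lemma aeval_dfM {K : Type} [CommRing K] {f : MvPolynomial (Var n) ℤ}
    (hf : ∀ s ∈ f.support, ∀ i : Fin r, ∑ j : Fin (n i + 1), s ⟨i, j⟩ = d i) (x : Var n → K)
    (v : Var n) :
    aeval x (pderiv v f) = ∑ t : monsM n d, ((f.coeff t : ℤ) : K) * dv x v (t : Var n →₀ ℕ) := by
  conv_lhs => rw [eq_sumM hf]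
  rw [map_sum, map_sum]
  refine Finset.sum_congr rfl fun m _ => ?_
  rw [pderiv_monomial, Pool.Agent.Y697.C13.aeval_mon]
  unfold dv
  push_cast
  ring

/-- the derivatives are multihomogeneous -/
lemma pderiv_mh {f : MvPolynomial (Var n) ℤ}
    (hf : ∀ s ∈ f.support, ∀ i : Fin r, ∑ j : Fin (n i + 1), s ⟨i, j⟩ = d i) (v : Var n) :
    ∀ s ∈ (pderiv v f).support, ∀ i : Fin r, ∑ j : Fin (n i + 1), s ⟨i, j⟩ =
      d i - if v.1 = i then 1 else 0 := by
  classical
  intro s hs i
  rw [mem_support_iff, coeff_pderiv] at hs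
  have h1 : f.coeff (s + Finsupp.single v 1) ≠ 0 := fun h => hs (by rw [h]; simp)
  have h2 := hf _ (mem_support_iff.2 h1) i
  simp only [Finsupp.add_apply, Finset.sum_add_distrib] at h2
  have h3 : ∑ j : Fin (n i + 1), (Finsupp.single v 1 : Var n →₀ ℕ) ⟨i, j⟩ =
      if v.1 = i then 1 else 0 := by
    obtain ⟨i', j'⟩ := v
    by_cases h : i' = i
    · subst h
      rw [if_pos rfl, Finset.sum_eq_single j']
      · simp
      · intro j _ hj
        rw [Finsupp.single_apply, if_neg]
        intro h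
        exact hj (eq_of_heq (Sigma.mk.inj h).2).symm
      · intro h
        exact absurd (Finset.mem_univ _) h
    · rw [if_neg h]
      refine Finset.sum_eq_zero fun j _ => ?_
      rw [Finsupp.single_apply, if_neg]
      intro h'
      exact h (Sigma.mk.inj h').1
  rw [h3] at h2
  omega

theorem exists_DM (hd : ∀ i, 1 ≤ d i) : ∃ D : MvPolynomial (monsM n d) ℚ, D ≠ 0 ∧
    ∀ f : MvPolynomial (Var n) ℤ,
      (∀ s ∈ f.support, ∀ i : Fin r, ∑ j : Fin (n i + 1), s ⟨i, j⟩ = d i) → ¬ SmoothV f →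
      eval (fun t : monsM n d => ((f.coeff t : ℤ) : ℚ)) D = 0 := by
  classical
  have h0 := fun ρ : ∀ i, Fin (n i + 1) => exists_D_abs (sp_M hd ρ)
  choose D hD0 hD using h0
  refine ⟨∏ ρ, D ρ, Finset.prod_ne_zero_iff.2 fun ρ _ => hD0 ρ, ?_⟩
  intro f hf hns
  unfold SmoothV at hns
  push Not at hns
  obtain ⟨K, _, _, x, hx, hE, hG⟩ := hns
  have hex : ∀ i : Fin r, ∃ j : Fin (n i + 1), x ⟨i, j⟩ ≠ 0 := by
    intro i
    obtain ⟨j, hj⟩ := Function.ne_iff.1 (hx i)
    exact ⟨j, hj⟩
  choose ρ hρ using hex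
  rw [map_prod]
  refine Finset.prod_eq_zero (Finset.mem_univ ρ) ?_
  obtain ⟨x', hx'⟩ : ∃ x' : Var n → K, x' = fun a => (x ⟨a.1, ρ a.1⟩)⁻¹ * x a := ⟨_, rfl⟩
  have h1 := hD ρ K (fun t => ((f.coeff t : ℤ) : K)) x'
    (by
      intro s hs
      have h2 : s.2 = ρ s.1 := by
        by_contra h
        exact hs ⟨s, h⟩ rfl
      have h3 : (⟨s.1, ρ s.1⟩ : Var n) = s := by rw [← h2]
      rw [hx']
      show (x ⟨s.1, ρ s.1⟩)⁻¹ * x s = 1
      have h4 := hρ s.1
      rw [h3] at h4 ⊢
      exact inv_mul_cancel₀ h4)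
    (by
      rw [← aeval_fM hf x', hx']
      have h2 := Pool.Agent.Y362.MH.aeval_block f hf (fun i => (x ⟨i, ρ i⟩)⁻¹) x
      rw [hE, mul_zero] at h2
      exact h2)
    (by
      intro v
      rw [← aeval_dfM hf x' v.1, hx']
      have h2 := Pool.Agent.Y362.MH.aeval_block _ (pderiv_mh hf v.1)
        (fun i => (x ⟨i, ρ i⟩)⁻¹) x
      rw [hG v.1, mul_zero] at h2
      exact h2)
  have h2 : (algebraMap ℚ K) (eval (fun t : monsM n d => ((f.coeff t : ℤ) : ℚ)) (D ρ)) = 0 := by
    rw [← h1]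
    have h3 : (fun t : monsM n d => ((f.coeff t : ℤ) : K)) =
        fun t : monsM n d => algebraMap ℚ K ((f.coeff t : ℤ) : ℚ) := by
      funext v
      rw [eq_ratCast, Rat.cast_intCast]
    have h4 := MvPolynomial.aeval_algebraMap_apply (A := ℚ) (B := K)
      (fun t : monsM n d => ((f.coeff t : ℤ) : ℚ)) (D ρ)
    rw [h3]
    exact h4.symm
  exact (map_eq_zero (algebraMap ℚ K)).1 h2

/-- Almost all multihomogeneous forms are smooth. -/
theorem smooth_denseM (hd : ∀ i, 1 ≤ d i) (ε : ℝ) (hε : 0 < ε) : ∃ H₀ : ℕ, ∀ H : ℕ, H₀ ≤ H →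
    (({f | f ∈ FmV n d H ∧ ¬ SmoothV f} : Set _).ncard : ℝ) ≤ ε * ((FmV n d H).ncard : ℝ) := by
  classical
  obtain ⟨D, hD0, hD⟩ := exists_DM (n := n) hd
  obtain ⟨C, hC0, hC⟩ := Pool.Agent.Y697.C13.sz D hD0
  refine ⟨max 1 ⌈C / ε⌉₊, fun H hH => ?_⟩
  have hH1 : 1 ≤ H := (le_max_left _ _).trans hH
  have hH2 : C / ε ≤ H := (Nat.le_ceil _).trans (by exact_mod_cast (le_max_right _ _).trans hH)
  have hH0 : (0 : ℝ) < H := by exact_mod_cast hH1
  obtain ⟨S, hS⟩ : ∃ S : Finset (monsM n d → ℤ),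
      S = (Fintype.piFinset (fun _ : monsM n d => Finset.Icc (-(H : ℤ)) H)).filter
      (fun c => eval (fun v => ((c v : ℤ) : ℚ)) D = 0) := ⟨_, rfl⟩
  have hsub : {f | f ∈ FmV n d H ∧ ¬ SmoothV f} ⊆ pol '' (S : Set (monsM n d → ℤ)) := by
    rintro f ⟨hf, hs⟩
    have hf' := hf
    rw [Fm_eq] at hf
    obtain ⟨c, hc, rfl⟩ := hf
    refine ⟨c, ?_, rfl⟩
    rw [Finset.mem_coe, hS, Finset.mem_filter, Fintype.mem_piFinset]
    refine ⟨fun t => Finset.mem_Icc.2 (abs_le.1 (hc t)), ?_⟩
    have h1 := hD _ hf'.1 hs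
    simp only [coeff_pol] at h1
    exact h1
  have h1 : ({f | f ∈ FmV n d H ∧ ¬ SmoothV f} : Set _).ncard ≤ S.card := by
    refine (Set.ncard_le_ncard hsub ((Finset.finite_toSet S).image _)).trans ?_
    refine (Set.ncard_image_le (Finset.finite_toSet S)).trans ?_
    rw [Set.ncard_coe_finset]
  have h2 : ((FmV n d H).ncard : ℝ) = ((2 * H + 1 : ℕ) : ℝ) ^ Fintype.card (monsM n d) := by
    rw [Fm_card]
    push_cast
    rfl
  have h3 : (S.card : ℝ) * (2 * (H : ℝ) + 1) ≤ C * ((FmV n d H).ncard : ℝ) := by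
    rw [h2, hS]
    exact hC H
  obtain ⟨N, hN⟩ : ∃ N : ℝ, N = ((FmV n d H).ncard : ℝ) := ⟨_, rfl⟩
  obtain ⟨B, hB⟩ : ∃ B : ℝ, B = (({f | f ∈ FmV n d H ∧ ¬ SmoothV f} : Set _).ncard : ℝ) :=
    ⟨_, rfl⟩
  have h1' : B ≤ (S.card : ℝ) := by
    rw [hB]
    exact_mod_cast h1
  rw [← hN] at h3
  rw [← hB, ← hN]
  have h5 : C ≤ ε * H := by
    rw [div_le_iff₀ hε] at hH2
    linarith
  have hB0 : 0 ≤ B := hB ▸ Nat.cast_nonneg _
  have hN0 : 0 ≤ N := hN ▸ Nat.cast_nonneg _
  have h6 : B * H ≤ (ε * N) * H := by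
    have e1 : B * H ≤ (S.card : ℝ) * (2 * (H : ℝ) + 1) :=
      mul_le_mul h1' (by linarith) hH0.le (Nat.cast_nonneg _)
    have e2 : C * N ≤ (ε * H) * N := mul_le_mul_of_nonneg_right h5 hN0
    linarith
  exact le_of_mul_le_mul_right h6 hH0

end

end Pool.Agent.K3h37.RP
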