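import Pool.Agent.K3h37.RP.Fix
import Pool.Agent.K3h37.RP.Smooth
import Pool.Agent.Y716.M.WAMain

/-!
# Rational points of random hypersurfaces in products of projective spaces outside thin sets:
the assembly
-/

set_option autoImplicit false

namespace Pool.Agent.K3h37.RP

open Polynomial Filter Topology
open Pool.Agent.Y716.M (Var monsM bl WeakApproxM ElsB formsM IsM)

section
variable {r : ℕ} {n d : Fin r → ℕ}

/-- the tests for finitely many polynomials -/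
theorem tests_allV (b : Fin r) (hn : 1 ≤ n b) (hd : 1 ≤ d b) :
    ∀ (k : ℕ) (Q : Fin k → (MvPolynomial (Var n) ℤ)[X]), (∀ i, BaseV (Q i)) →
    ∀ (m : ℕ) (ε : ℝ), 0 < ε → ∃ M H₀ : ℕ, m ≤ M ∧ ∀ H : ℕ, H₀ ≤ H →
      (({f | f ∈ FmV n d H ∧ ¬ ∃ (l : Fin k → ℕ) (a : Fin k → Var n → ℤ),
        Function.Injective l ∧ ∀ i, (l i).Prime ∧ m < l i ∧ l i ≤ M ∧ ObsV (Q i) (l i) (a i) ∧
          (∀ j, ¬ (l i : ℤ) ∣ a i j) ∧ TestV f (l i) (a i)} : Set _).ncard : ℝ) ≤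
        ε * ((FmV n d H).ncard : ℝ) := by
  intro k
  induction k with
  | zero =>
    intro Q _ m ε hε
    refine ⟨m, 0, le_rfl, fun H _ => ?_⟩
    have h0 : ({f | f ∈ FmV n d H ∧ ¬ ∃ (l : Fin 0 → ℕ) (a : Fin 0 → Var n → ℤ),
        Function.Injective l ∧ ∀ i, (l i).Prime ∧ m < l i ∧ l i ≤ m ∧ ObsV (Q i) (l i) (a i) ∧
          (∀ j, ¬ (l i : ℤ) ∣ a i j) ∧ TestV f (l i) (a i)} : Set _) = ∅ := by
      rw [Set.eq_empty_iff_forall_notMem]
      rintro f ⟨-, hf⟩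
      exact hf ⟨Fin.elim0, Fin.elim0, fun i => i.elim0, fun i => i.elim0⟩
    rw [h0, Set.ncard_empty, Nat.cast_zero]
    exact mul_nonneg hε.le (Nat.cast_nonneg _)
  | succ k ih =>
    intro Q hQ m ε hε
    have hex : ∀ p : ℕ, ∃ a : Var n → ℤ, p ∈ {p : ℕ | p.Prime ∧ ∃ a : Var n → ℤ,
        (∀ i, ¬ (p : ℤ) ∣ a i) ∧ ObsV (Q 0) p a} →
        (∀ i, ¬ (p : ℤ) ∣ a i) ∧ ObsV (Q 0) p a := by
      intro p
      by_cases hp : p ∈ {p : ℕ | p.Prime ∧ ∃ a : Var n → ℤ,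
        (∀ i, ¬ (p : ℤ) ∣ a i) ∧ ObsV (Q 0) p a}
      · obtain ⟨h1, a, ha⟩ := hp
        exact ⟨a, fun _ => ha⟩
      · exact ⟨0, fun h => absurd h hp⟩
    choose a ha using hex
    obtain ⟨M₁, H₁, hM₁, hH₁⟩ := denV b hn hd _ (fun p hp => hp.1) (hQ 0) a
      (fun p hp => (ha p hp).1) (ε / 2) (half_pos hε) m
    obtain ⟨M₂, H₂, hM₂, hH₂⟩ := ih (fun i => Q i.succ) (fun i => hQ i.succ) M₁ (ε / 2)
      (half_pos hε)
    refine ⟨M₂, max H₁ H₂, hM₁.trans hM₂, fun H hH => ?_⟩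
    have h1 := hH₁ H ((le_max_left _ _).trans hH)
    have h2 := hH₂ H ((le_max_right _ _).trans hH)
    have hsub : {f | f ∈ FmV n d H ∧ ¬ ∃ (l : Fin (k + 1) → ℕ)
        (a : Fin (k + 1) → Var n → ℤ),
        Function.Injective l ∧ ∀ i, (l i).Prime ∧ m < l i ∧ l i ≤ M₂ ∧ ObsV (Q i) (l i) (a i) ∧
          (∀ j, ¬ (l i : ℤ) ∣ a i j) ∧ TestV f (l i) (a i)} ⊆
        {f | f ∈ FmV n d H ∧ ∀ p ∈ {p : ℕ | p.Prime ∧ ∃ a : Var n → ℤ,
          (∀ i, ¬ (p : ℤ) ∣ a i) ∧ ObsV (Q 0) p a}, m < p → p ≤ M₁ → ¬ TestV f p (a p)} ∪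
        {f | f ∈ FmV n d H ∧ ¬ ∃ (l : Fin k → ℕ) (a : Fin k → Var n → ℤ),
        Function.Injective l ∧ ∀ i, (l i).Prime ∧ M₁ < l i ∧ l i ≤ M₂ ∧
          ObsV (Q i.succ) (l i) (a i) ∧ (∀ j, ¬ (l i : ℤ) ∣ a i j) ∧
            TestV f (l i) (a i)} := by
      rintro f ⟨hf, hno⟩
      by_contra hcon
      rw [Set.mem_union, not_or] at hcon
      obtain ⟨hc1, hc2⟩ := hcon
      have h3 : ∃ p ∈ {p : ℕ | p.Prime ∧ ∃ a : Var n → ℤ,
          (∀ i, ¬ (p : ℤ) ∣ a i) ∧ ObsV (Q 0) p a}, m < p ∧ p ≤ M₁ ∧ TestV f p (a p) := by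
        by_contra h
        push Not at h
        exact hc1 ⟨hf, fun p hp h1 h2 => h p hp h1 h2⟩
      have h4 : ∃ (l : Fin k → ℕ) (a : Fin k → Var n → ℤ),
        Function.Injective l ∧ ∀ i, (l i).Prime ∧ M₁ < l i ∧ l i ≤ M₂ ∧
          ObsV (Q i.succ) (l i) (a i) ∧ (∀ j, ¬ (l i : ℤ) ∣ a i j) ∧
            TestV f (l i) (a i) := by
        by_contra h
        exact hc2 ⟨hf, h⟩
      obtain ⟨p, hp, hp1, hp2, hp3⟩ := h3
      obtain ⟨l, b, hl, hb⟩ := h4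
      apply hno
      refine ⟨Fin.cons p l, Fin.cons (a p) b, ?_, ?_⟩
      · rw [Fin.cons_injective_iff]
        refine ⟨?_, hl⟩
        rintro ⟨i, hi⟩
        have := (hb i).2.1
        omega
      · intro i
        refine Fin.cases ?_ (fun i => ?_) i
        · simp only [Fin.cons_zero]
          exact ⟨hp.1, hp1, hp2.trans hM₂, (ha p hp).2, (ha p hp).1, hp3⟩
        · simp only [Fin.cons_succ]
          exact ⟨(hb i).1, lt_of_le_of_lt hM₁ (hb i).2.1, (hb i).2.2.1, (hb i).2.2.2.1,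
            (hb i).2.2.2.2⟩
    have h5 := Set.ncard_le_ncard hsub
      (((Fm_fin n d H).subset (fun f hf => hf.1)).union
        ((Fm_fin n d H).subset (fun f hf => hf.1)))
    have h6 := (h5.trans (Set.ncard_union_le _ _))
    have h7 := (Nat.cast_le (α := ℝ)).mpr h6
    rw [Nat.cast_add] at h7
    linarith

theorem TestedV.mono {m M M' : ℕ} {f : MvPolynomial (Var n) ℤ}
    {P : (MvPolynomial (Var n) ℤ)[X]} (hM : M ≤ M') (h : TestedV m M f P) :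
    TestedV m M' f P := by
  obtain ⟨k, Q, c, l, a, h1, h2, h3⟩ := h
  exact ⟨k, Q, c, l, a, h1, h2, fun i => ⟨(h3 i).1, (h3 i).2.1, (h3 i).2.2.1.trans hM,
    (h3 i).2.2.2⟩⟩

theorem tested_allV (b : Fin r) (hn : 1 ≤ n b) (hd : 1 ≤ d b)
    (P : (MvPolynomial (Var n) ℤ)[X]) (hP : NoRootV P) (m : ℕ) (ε : ℝ) (hε : 0 < ε) :
    ∃ M H₀ : ℕ, m ≤ M ∧ 2 ≤ M ∧ ∀ H : ℕ, H₀ ≤ H →
      (({f | f ∈ FmV n d H ∧ ¬ TestedV m M f P} : Set _).ncard : ℝ) ≤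
        ε * ((FmV n d H).ncard : ℝ) := by
  have : Nonempty (Var n) := ⟨⟨b, 0⟩⟩
  obtain ⟨k, Q, c, hprod, hK⟩ := fac_base P hP
  obtain ⟨M, H₀, hM, hH⟩ := tests_allV b hn hd k Q hK m ε hε
  refine ⟨max M 2, H₀, hM.trans (le_max_left _ _), le_max_right _ _, fun H hH0 => ?_⟩
  refine le_trans ?_ (hH H hH0)
  have hsub : {f | f ∈ FmV n d H ∧ ¬ TestedV m (max M 2) f P} ⊆
      {f | f ∈ FmV n d H ∧ ¬ ∃ (l : Fin k → ℕ) (a : Fin k → Var n → ℤ),
        Function.Injective l ∧ ∀ i, (l i).Prime ∧ m < l i ∧ l i ≤ M ∧ ObsV (Q i) (l i) (a i) ∧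
          (∀ j, ¬ (l i : ℤ) ∣ a i j) ∧ TestV f (l i) (a i)} := by
    rintro f ⟨hf, hno⟩
    refine ⟨hf, ?_⟩
    rintro ⟨l, a, hl, h⟩
    exact hno (TestedV.mono (le_max_left _ _) ⟨k, Q, c, l, a, hprod, hl, h⟩)
  exact (Nat.cast_le (α := ℝ)).mpr
    (Set.ncard_le_ncard hsub ((Fm_fin n d H).subset (fun f hf => hf.1)))

/-! ## The covers of bounded complexity -/

/-- the covers of complexity at most `m` -/
def CovV (n : Fin r → ℕ) (m : ℕ) : Set (MvPolynomial (Var n) ℤ)[X] :=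
  {P | P.natDegree ≤ m ∧ (∃ D : Fin r → ℕ, (∀ i, D i ≤ m) ∧ ∀ k, ∀ s ∈ (P.coeff k).support,
      ∀ i : Fin r, ∑ j : Fin (n i + 1), s ⟨i, j⟩ = D i) ∧
    (∀ k u, |(P.coeff k).coeff u| ≤ (m : ℤ)) ∧ NoRootV P}

theorem finV (n : Fin r → ℕ) (m : ℕ) : (CovV n m).Finite := by
  let I : Type := Fin (m + 1) × (Var n → Fin (m + 1))
  let ix : (Var n → Fin (m + 1)) → (Var n →₀ ℕ) := fun u =>
    Finsupp.equivFunOnFinite.symm (fun i => (u i : ℕ))
  let f : (MvPolynomial (Var n) ℤ)[X] → (I → ℤ) := fun P i =>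
    (P.coeff i.1).coeff (ix i.2)
  have hfin : (Set.pi Set.univ (fun _ : I => Set.Icc (-(m:ℤ)) m)).Finite :=
    Set.Finite.pi fun _ => Set.finite_Icc _ _
  refine Set.Finite.of_injOn (f := f) (t := Set.pi Set.univ (fun _ : I => Set.Icc (-(m:ℤ)) m))
    ?_ ?_ hfin
  · rintro P ⟨_, _, hP, _⟩ i _
    exact abs_le.1 (hP i.1 (ix i.2))
  · rintro P ⟨hPd, ⟨D, hDm, hPD⟩, hP, _⟩ Q ⟨hQd, ⟨E, hEm, hQE⟩, hQ, _⟩ hPQ
    ext k u
    by_cases hk : k ≤ m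
    · by_cases hu : ∀ i, u i ≤ m
      · have h1 := congrFun hPQ (⟨k, by omega⟩, fun i => ⟨u i, by have := hu i; omega⟩)
        have h2 : ix (fun i => ⟨u i, by have := hu i; omega⟩) = u := by
          ext i
          simp [ix]
        simp only [f] at h1
        rw [h2] at h1
        exact h1
      · push Not at hu
        obtain ⟨⟨i, j⟩, hi⟩ := hu
        have h3 : ∀ (R : (MvPolynomial (Var n) ℤ)[X]) (D : Fin r → ℕ), (∀ i, D i ≤ m) →
            (∀ k, ∀ s ∈ (R.coeff k).support,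
              ∀ i : Fin r, ∑ j : Fin (n i + 1), s ⟨i, j⟩ = D i) → (R.coeff k).coeff u = 0 := by
          intro R D hD hR
          by_contra hne
          have h4 := hR k u (MvPolynomial.mem_support_iff.2 hne) i
          have h5 : u ⟨i, j⟩ ≤ ∑ j : Fin (n i + 1), u ⟨i, j⟩ :=
            Finset.single_le_sum (f := fun j : Fin (n i + 1) => u ⟨i, j⟩)
              (fun _ _ => Nat.zero_le _) (Finset.mem_univ j)
          have := hD i
          omega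
        rw [h3 P D hDm hPD, h3 Q E hEm hQE]
    · rw [coeff_eq_zero_of_natDegree_lt (by omega), coeff_eq_zero_of_natDegree_lt (by omega)]

/-- the product of all the covers of complexity at most `m` -/
noncomputable def PtotV (n : Fin r → ℕ) (m : ℕ) : (MvPolynomial (Var n) ℤ)[X] :=
  ∏ P ∈ (finV n m).toFinset, P

theorem noRoot_one {σ : Type} : NoRootV (1 : (MvPolynomial σ ℤ)[X]) := by
  intro r
  rw [map_one]
  exact one_ne_zero

theorem noRoot_mul {σ : Type} {P Q : (MvPolynomial σ ℤ)[X]} (hP : NoRootV P)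
    (hQ : NoRootV Q) : NoRootV (P * Q) := by
  intro r
  rw [map_mul]
  exact mul_ne_zero (hP r) (hQ r)

theorem ptot_noRoot (n : Fin r → ℕ) (m : ℕ) : NoRootV (PtotV n m) := by
  unfold PtotV
  refine Finset.prod_induction _ NoRootV (fun _ _ => noRoot_mul) noRoot_one (fun P hP => ?_)
  rw [Set.Finite.mem_toFinset] at hP
  exact hP.2.2.2

theorem ptot_eval {m : ℕ} {x : Var n → ℚ} {w : ℚ}
    (h : ((PtotV n m).map (evV x)).eval w ≠ 0) {P : (MvPolynomial (Var n) ℤ)[X]}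
    (hP : P ∈ CovV n m) : (P.map (evV x)).eval w ≠ 0 := by
  intro h0
  apply h
  unfold PtotV
  rw [Polynomial.map_prod, Polynomial.eval_prod]
  exact Finset.prod_eq_zero ((finV n m).mem_toFinset.mpr hP) h0

/-! ## Weak approximation and positive density -/

theorem FmV_eq (n d : Fin r → ℕ) (H : ℕ) :
    FmV n d H = {f | IsM d (H : ℝ) f} := by
  ext f
  simp only [Set.mem_ofPred_eq, Pool.Agent.Y77.M9.isM_iff_int, FmV]

open scoped Classical in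
theorem ncard_FmV (n d : Fin r → ℕ) (H : ℕ) (p : MvPolynomial (Var n) ℤ → Prop) :
    ({f | f ∈ FmV n d H ∧ p f} : Set _).ncard =
      ((formsM n d (H : ℝ)).filter p).card := by
  rw [← Pool.Agent.Y455.WAM.ncard_eq_filter'', FmV_eq]
  rfl

open scoped Classical in
theorem ncard_FmV' (n d : Fin r → ℕ) (H : ℕ) :
    (FmV n d H).ncard = (formsM n d (H : ℝ)).card := by
  have h := ncard_FmV n d H (fun _ => True)
  simp only [and_true, Finset.filter_true] at h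
  exact h

variable (hr : 2 ≤ r) (hn : ∀ i, 1 ≤ n i) (hd : ∀ i, 2 ≤ d i) (b : Fin r) (hb : d b ≤ n b)
include hr hn hd hb

theorem wa_badV (m : ℕ) (hm : 1 ≤ m) (ε : ℝ) (hε : 0 < ε) :
    ∃ H₀ : ℕ, ∀ H : ℕ, H₀ ≤ H →
      (({f | f ∈ FmV n d H ∧ ¬ WeakApproxM m f} : Set _).ncard : ℝ) ≤
        ε * ((FmV n d H).ncard : ℝ) := by
  classical
  have hcl := Pool.Agent.Y716.M.class_theoremM n d b hr hd hn ((hd b).trans hb) hb
  have hexc := Pool.Agent.Y448.M11.exc_target n d (by omega) hd hcl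
  obtain ⟨H₀, hH₀⟩ := Pool.Agent.Y455.WAM.wa_excM n d hexc hm hε
  refine ⟨⌈H₀⌉₊, fun H hH => ?_⟩
  have h1 := hH₀ (H : ℝ) ((Nat.le_ceil _).trans (by exact_mod_cast hH))
  rw [ncard_FmV, ncard_FmV']
  convert h1

theorem pos_elsV : ∃ c : ℝ, 0 < c ∧ ∃ H₁ : ℕ, ∀ H : ℕ, H₁ ≤ H →
    c * ((FmV n d H).ncard : ℝ) ≤ (({f | f ∈ FmV n d H ∧ ElsB f} : Set _).ncard : ℝ) := by
  classical
  have hcl := Pool.Agent.Y716.M.class_theoremM n d b hr hd hn ((hd b).trans hb) hb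
  obtain ⟨c, hc, H₁, hH₁⟩ := Pool.Agent.Y77.M9.solM_positive (by omega) hd hn hcl
  refine ⟨c, hc, ⌈H₁⌉₊, fun H hH => ?_⟩
  have h1 := hH₁ (H : ℝ) ((Nat.le_ceil _).trans (by exact_mod_cast hH))
  rw [ncard_FmV, ncard_FmV']
  refine h1.trans ?_
  refine (Nat.cast_le (α := ℝ)).mpr (Finset.card_le_card ?_)
  intro f hf
  rw [Finset.mem_filter] at hf ⊢
  exact ⟨hf.1, Pool.Agent.Y455.WAM.elsB_of_solM (Pool.Agent.Y716.M.mem_formsM.mp hf.1) hf.2⟩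

theorem pos_els_smooth : ∃ c : ℝ, 0 < c ∧ ∃ H₁ : ℕ, ∀ H : ℕ, H₁ ≤ H →
    c * ((FmV n d H).ncard : ℝ) ≤
      (({f | f ∈ FmV n d H ∧ SmoothV f ∧ ElsB f} : Set _).ncard : ℝ) := by
  obtain ⟨c, hc, H₁, hH₁⟩ := pos_elsV hr hn hd b hb
  obtain ⟨H₂, hH₂⟩ := smooth_denseM (n := n) (d := d) (fun i => by have := hd i; omega)
    (c / 2) (half_pos hc)
  refine ⟨c / 2, half_pos hc, max H₁ H₂, fun H hH => ?_⟩
  have h1 := hH₁ H ((le_max_left _ _).trans hH)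
  have h2 := hH₂ H ((le_max_right _ _).trans hH)
  have hsub : {f | f ∈ FmV n d H ∧ ElsB f} ⊆
      {f | f ∈ FmV n d H ∧ SmoothV f ∧ ElsB f} ∪ {f | f ∈ FmV n d H ∧ ¬ SmoothV f} := by
    rintro f ⟨hf, he⟩
    by_cases hs : SmoothV f
    · exact Or.inl ⟨hf, hs, he⟩
    · exact Or.inr ⟨hf, hs⟩
  have h5 := (Set.ncard_le_ncard hsub (((Fm_fin n d H).subset (fun f hf => hf.1)).union
    ((Fm_fin n d H).subset (fun f hf => hf.1)))).trans (Set.ncard_union_le _ _)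
  have h7 := (Nat.cast_le (α := ℝ)).mpr h5
  rw [Nat.cast_add] at h7
  linarith

/-- Almost all forms have the property `WAPV`. -/
theorem wap_badV (P : (MvPolynomial (Var n) ℤ)[X]) (hP : NoRootV P) (m : ℕ) (hm : 1 ≤ m)
    (ε : ℝ) (hε : 0 < ε) : ∃ H₀ : ℕ, ∀ H : ℕ, H₀ ≤ H →
      (({f | f ∈ FmV n d H ∧ ¬ WAPV m f P} : Set _).ncard : ℝ) ≤
        ε * ((FmV n d H).ncard : ℝ) := by
  obtain ⟨M, H₁, hM, hM2, hH₁⟩ := tested_allV (n := n) (d := d) b (hn b)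
    (by have := hd b; omega) P hP m (ε / 2) (half_pos hε)
  obtain ⟨H₂, hH₂⟩ := wa_badV hr hn hd b hb M (by omega) (ε / 2) (half_pos hε)
  refine ⟨max H₁ H₂, fun H hH => ?_⟩
  have e1 := hH₁ H ((le_max_left _ _).trans hH)
  have e2 := hH₂ H ((le_max_right _ _).trans hH)
  have hsub : {f | f ∈ FmV n d H ∧ ¬ WAPV m f P} ⊆
      {f | f ∈ FmV n d H ∧ ¬ TestedV m M f P} ∪ {f | f ∈ FmV n d H ∧ ¬ WeakApproxM M f} := by
    rintro f ⟨hf, hno⟩
    by_cases ht : TestedV m M f P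
    · right
      exact ⟨hf, fun hw => hno (fixV m M f P hm hM hM2 hf.1 hw ht)⟩
    · left
      exact ⟨hf, ht⟩
  have h5 := (Set.ncard_le_ncard hsub (((Fm_fin n d H).subset (fun f hf => hf.1)).union
    ((Fm_fin n d H).subset (fun f hf => hf.1)))).trans (Set.ncard_union_le _ _)
  have h7 := (Nat.cast_le (α := ℝ)).mpr h5
  rw [Nat.cast_add] at h7
  linarith

/-- The theorem. -/
theorem mainV : ∃ m : ℕ → ℕ, Tendsto m atTop atTop ∧
    Tendsto (fun H : ℕ =>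
      (({f | f ∈ FmV n d H ∧ SmoothV f ∧ ElsB f ∧ WAPV (m H) f (PtotV n (m H))} :
        Set _).ncard : ℝ) /
      (({f | f ∈ FmV n d H ∧ SmoothV f ∧ ElsB f} : Set _).ncard : ℝ)) atTop (𝓝 1) := by
  obtain ⟨c, hc, hpos⟩ := pos_els_smooth hr hn hd b hb
  refine Pool.Agent.Y214.HB.diag_abs
    (T := fun H => ((FmV n d H).ncard : ℝ))
    (b := fun H => (({f | f ∈ FmV n d H ∧ SmoothV f ∧ ElsB f} : Set _).ncard : ℝ))
    (a := fun m H => (({f | f ∈ FmV n d H ∧ SmoothV f ∧ ElsB f ∧ WAPV m f (PtotV n m)} :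
      Set _).ncard : ℝ))
    (bad := fun m H => (({f | f ∈ FmV n d H ∧ ¬ WAPV m f (PtotV n m)} : Set _).ncard : ℝ))
    (fun H => Fm_pos n d H) hc hpos
    (fun m H => ?_) (fun m H => ?_)
    (fun m hm ε hε => wap_badV hr hn hd b hb _ (ptot_noRoot n m) m hm ε hε)
  · have : {f | f ∈ FmV n d H ∧ SmoothV f ∧ ElsB f ∧ WAPV m f (PtotV n m)} ⊆
        {f | f ∈ FmV n d H ∧ SmoothV f ∧ ElsB f} := fun f hf => ⟨hf.1, hf.2.1, hf.2.2.1⟩
    exact (Nat.cast_le (α := ℝ)).mpr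
      (Set.ncard_le_ncard this ((Fm_fin n d H).subset (fun f hf => hf.1)))
  · have hsub : {f | f ∈ FmV n d H ∧ SmoothV f ∧ ElsB f} ⊆
        {f | f ∈ FmV n d H ∧ SmoothV f ∧ ElsB f ∧ WAPV m f (PtotV n m)} ∪
        {f | f ∈ FmV n d H ∧ ¬ WAPV m f (PtotV n m)} := by
      rintro f ⟨hf, hs, he⟩
      by_cases hw : WAPV m f (PtotV n m)
      · left; exact ⟨hf, hs, he, hw⟩
      · right; exact ⟨hf, hw⟩
    have h5 := (Set.ncard_le_ncard hsub (((Fm_fin n d H).subset (fun f hf => hf.1)).union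
      ((Fm_fin n d H).subset (fun f hf => hf.1)))).trans (Set.ncard_union_le _ _)
    have h7 := (Nat.cast_le (α := ℝ)).mpr h5
    rw [Nat.cast_add] at h7
    exact h7

end

end Pool.Agent.K3h37.RP
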