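import Pool.Agent.K3h37.RP.Loc
import Pool.Agent.Y716.M.Defs

/-!
# Counting multihomogeneous forms with smooth zeros at given points modulo primes
-/

set_option autoImplicit false

namespace Pool.Agent.K3h37.RP

open Finset
open Pool.Agent.Y214.HB (Dv S_BOX S_PROD)
open Pool.Agent.Y716.M (Var monsM)

/-- multihomogeneous forms with coefficients at most `H` -/
def FmV {r : ℕ} (n d : Fin r → ℕ) (H : ℕ) : Set (MvPolynomial (Var n) ℤ) :=
  {f | (∀ s ∈ f.support, ∀ i : Fin r, ∑ j : Fin (n i + 1), s ⟨i, j⟩ = d i) ∧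
    ∀ s, |f.coeff s| ≤ (H : ℤ)}

section
variable {r : ℕ} {n d : Fin r → ℕ}

/-- the form with given coefficients -/
noncomputable def pol {R : Type} [CommRing R] (c : monsM n d → R) :
    MvPolynomial (Var n) R :=
  ∑ t : monsM n d, MvPolynomial.monomial (t : Var n →₀ ℕ) (c t)

lemma coeff_pol {R : Type} [CommRing R] (c : monsM n d → R) (t : monsM n d) :
    (pol c).coeff (t : Var n →₀ ℕ) = c t := by
  classical
  unfold pol
  rw [MvPolynomial.coeff_sum, sum_eq_single t]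
  · rw [MvPolynomial.coeff_monomial, if_pos rfl]
  · intro s _ hs
    rw [MvPolynomial.coeff_monomial, if_neg]
    exact fun h => hs (Subtype.ext h)
  · intro h
    exact absurd (mem_univ _) h

lemma coeff_pol' {R : Type} [CommRing R] (c : monsM n d → R) (u : Var n →₀ ℕ)
    (hu : u ∈ monsM n d) : (pol c).coeff u = c ⟨u, hu⟩ := coeff_pol c ⟨u, hu⟩

lemma coeff_pol_ne {R : Type} [CommRing R] (c : monsM n d → R) (u : Var n →₀ ℕ)
    (hu : u ∉ monsM n d) : (pol c).coeff u = 0 := by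
  classical
  unfold pol
  rw [MvPolynomial.coeff_sum]
  refine sum_eq_zero fun t _ => ?_
  rw [MvPolynomial.coeff_monomial, if_neg]
  rintro rfl
  exact hu t.2

lemma pol_inj : Function.Injective (pol : (monsM n d → ℤ) → _) := by
  intro c c' h
  funext t
  rw [← coeff_pol c t, ← coeff_pol c' t, h]

lemma Fm_eq (n d : Fin r → ℕ) (H : ℕ) :
    FmV n d H = pol '' {c : monsM n d → ℤ | ∀ t, |c t| ≤ (H : ℤ)} := by
  classical
  ext f
  constructor
  · rintro ⟨h1, h2⟩
    refine ⟨fun t => f.coeff t, fun t => h2 t, ?_⟩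
    refine MvPolynomial.ext _ _ fun u => ?_
    by_cases hu : u ∈ monsM n d
    · rw [coeff_pol' _ u hu]
    · rw [coeff_pol_ne _ _ hu]
      by_contra h
      apply hu
      rw [Pool.Agent.Y716.M.mem_monsM]
      exact h1 u (MvPolynomial.mem_support_iff.2 (Ne.symm h))
  · rintro ⟨c, hc, rfl⟩
    refine ⟨fun s hs => ?_, fun u => ?_⟩
    · rw [← Pool.Agent.Y716.M.mem_monsM]
      by_contra h
      exact (MvPolynomial.mem_support_iff.1 hs) (coeff_pol_ne c s h)
    · by_cases hu : u ∈ monsM n d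
      · rw [coeff_pol' c u hu]
        exact hc _
      · rw [coeff_pol_ne _ _ hu, abs_zero]
        positivity

lemma box_eq (n d : Fin r → ℕ) (H : ℕ) : {c : monsM n d → ℤ | ∀ t, |c t| ≤ (H : ℤ)} =
    ((Fintype.piFinset fun _ : monsM n d => Finset.Icc (-(H : ℤ)) H : Finset (monsM n d → ℤ)) :
      Set (monsM n d → ℤ)) := by
  classical
  ext c
  rw [mem_coe, Fintype.mem_piFinset]
  refine forall_congr' fun t => ?_
  rw [mem_Icc, abs_le]

lemma box_fin (n d : Fin r → ℕ) (H : ℕ) : {c : monsM n d → ℤ | ∀ t, |c t| ≤ (H : ℤ)}.Finite := by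
  rw [box_eq]
  exact finite_toSet _

lemma Fm_fin (n d : Fin r → ℕ) (H : ℕ) : (FmV n d H).Finite := by
  rw [Fm_eq]
  exact (box_fin n d H).image _

lemma Fm_card (n d : Fin r → ℕ) (H : ℕ) : ((FmV n d H).ncard : ℝ) =
    (2 * (H : ℝ) + 1) ^ Fintype.card (monsM n d) := by
  classical
  rw [Fm_eq, Set.ncard_image_of_injective _ pol_inj, box_eq, Set.ncard_coe_finset,
    Fintype.card_piFinset]
  simp only [Int.card_Icc, prod_const, card_univ]
  have h : ((H : ℤ) + 1 - -(H : ℤ)).toNat = 2 * H + 1 := by omega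
  rw [h]
  push_cast
  ring

lemma Fm_pos (n d : Fin r → ℕ) (H : ℕ) : (0 : ℝ) < ((FmV n d H).ncard : ℝ) := by
  rw [Fm_card]
  positivity

end

lemma eval_castV {σ : Type} [Fintype σ] (p : ℕ) (f : MvPolynomial σ ℤ) (a : σ → ℤ) :
    MvPolynomial.eval (fun i => (a i : ZMod p)) (MvPolynomial.map (Int.castRingHom (ZMod p)) f) =
      ((MvPolynomial.eval a f : ℤ) : ZMod p) := by
  rw [MvPolynomial.eval_map, MvPolynomial.eval₂_eq', MvPolynomial.eval_eq']
  push_cast
  rfl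

section
variable {r : ℕ} {n d : Fin r → ℕ}

lemma map_pol (p : ℕ) (c : monsM n d → ℤ) :
    MvPolynomial.map (Int.castRingHom (ZMod p)) (pol c) = pol (fun t => (c t : ZMod p)) := by
  unfold pol
  rw [map_sum]
  refine sum_congr rfl fun t _ => ?_
  rw [MvPolynomial.map_monomial]
  rfl

lemma test_iff (p : ℕ) (c : monsM n d → ℤ) (a : Var n → ℤ) :
    TestV (pol c) p a ↔
      (MvPolynomial.eval (fun i => (a i : ZMod p)) (pol (fun t => (c t : ZMod p))) = 0 ∧
        ∃ j, MvPolynomial.eval (fun i => (a i : ZMod p))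
          (MvPolynomial.pderiv j (pol (fun t => (c t : ZMod p)))) ≠ 0) := by
  unfold TestV
  rw [← map_pol, eval_castV]
  refine and_congr (CharP.intCast_eq_zero_iff (ZMod p) p _).symm (exists_congr fun j => ?_)
  rw [MvPolynomial.pderiv_map, eval_castV, Ne]
  exact not_congr (CharP.intCast_eq_zero_iff (ZMod p) p _).symm

end

/-- counting with two independent functionals -/
theorem fib_count {T : Type} [Fintype T] (p : ℕ) [Fact p.Prime] (φ ψ : (T → ZMod p) →+ ZMod p)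
    (surj : ∀ x y : ZMod p, ∃ c, φ c = x ∧ ψ c = y) (B : Set (T → ZMod p))
    (hB : ∀ c ∈ B, ¬ (φ c = 0 ∧ ψ c ≠ 0)) :
    ((B.ncard : ℕ) : ℝ) ≤ (1 - ((p : ℝ) - 1) / (p : ℝ) ^ 2) * (p : ℝ) ^ Fintype.card T := by
  classical
  let L : (T → ZMod p) →+ ZMod p × ZMod p := φ.prod ψ
  have hL : ∀ c, L c = (φ c, ψ c) := fun c => rfl
  have surj' : ∀ b : ZMod p × ZMod p, b ∈ Set.range L := by
    rintro ⟨x, y⟩
    obtain ⟨c, h1, h2⟩ := surj x y
    exact ⟨c, by rw [hL, h1, h2]⟩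
  set κ : ℕ := (Finset.univ.filter fun c : T → ZMod p => L c = 0).card with hκ
  have fib : ∀ b : ZMod p × ZMod p, (Finset.univ.filter fun c : T → ZMod p => L c = b).card = κ := by
    intro b
    exact AddMonoidHom.card_fiber_eq_of_mem_range L (surj' b) (surj' 0)
  have tot : p ^ Fintype.card T = p ^ 2 * κ := by
    have h1 : (Finset.univ : Finset (T → ZMod p)).card =
        ∑ b ∈ (Finset.univ : Finset (ZMod p × ZMod p)),
          (Finset.univ.filter fun c : T → ZMod p => L c = b).card :=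
      Finset.card_eq_sum_card_fiberwise (fun c _ => Finset.mem_coe.2 (Finset.mem_univ _))
    rw [Finset.sum_congr rfl (fun b _ => fib b), Finset.sum_const, Finset.card_univ,
      Finset.card_univ, Fintype.card_prod, ZMod.card, Fintype.card_fun, ZMod.card, smul_eq_mul] at h1
    rw [h1]
    ring
  set Gd : Finset (ZMod p × ZMod p) := {0} ×ˢ (Finset.univ.erase 0) with hGd
  have cGd : Gd.card = p - 1 := by
    rw [hGd, Finset.card_product, Finset.card_singleton, one_mul, Finset.card_erase_of_mem (Finset.mem_univ _),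
      Finset.card_univ, ZMod.card]
  set GG : Finset (T → ZMod p) := Finset.univ.filter fun c => L c ∈ Gd with hGG
  have cGG : GG.card = (p - 1) * κ := by
    have h1 : GG.card = ∑ b ∈ Gd, (GG.filter fun c => L c = b).card :=
      Finset.card_eq_sum_card_fiberwise (fun c hc => (Finset.mem_filter.1 hc).2)
    have h2 : ∀ b ∈ Gd, (GG.filter fun c => L c = b).card = κ := by
      intro b hb
      rw [← fib b]
      congr 1
      ext c
      simp only [hGG, Finset.mem_filter, Finset.mem_univ, true_and]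
      constructor
      · exact fun h => h.2
      · exact fun h => ⟨h ▸ hb, h⟩
    rw [h1, Finset.sum_congr rfl h2, Finset.sum_const, cGd, smul_eq_mul]
  have sub : B ⊆ ((GGᶜ : Finset (T → ZMod p)) : Set (T → ZMod p)) := by
    intro c hc
    rw [Finset.mem_coe, Finset.mem_compl]
    intro hcG
    apply hB c hc
    have h3 : L c ∈ Gd := (Finset.mem_filter.1 hcG).2
    rw [hGd, Finset.mem_product, hL] at h3
    obtain ⟨h4, h5⟩ := h3
    exact ⟨Finset.mem_singleton.1 h4, Finset.ne_of_mem_erase h5⟩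
  have hle := Set.ncard_le_ncard sub (Finset.finite_toSet _)
  rw [Set.ncard_coe_finset, Finset.card_compl, Fintype.card_fun, ZMod.card, cGG] at hle
  have hp1 : 1 ≤ p := (Fact.out : p.Prime).one_lt.le
  have hpos : (0 : ℝ) < p := by exact_mod_cast hp1
  have hle2 : (p - 1) * κ ≤ p ^ Fintype.card T := by
    rw [← cGG]
    have h6 := Finset.card_le_univ GG
    rw [Fintype.card_fun, ZMod.card] at h6
    exact h6
  have htot : ((p : ℝ) ^ Fintype.card T) = (p : ℝ) ^ 2 * κ := by exact_mod_cast tot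
  calc _ ≤ ((p ^ Fintype.card T - (p - 1) * κ : ℕ) : ℝ) := by exact_mod_cast hle
    _ = (p : ℝ) ^ Fintype.card T - ((p : ℝ) - 1) * κ := by
        rw [Nat.cast_sub hle2, Nat.cast_mul, Nat.cast_sub hp1]
        push_cast
        ring
    _ = (1 - ((p : ℝ) - 1) / (p : ℝ) ^ 2) * (p : ℝ) ^ Fintype.card T := by
        rw [htot]
        field_simp

/-- the form with given coefficients, as a homomorphism -/
noncomputable def polH {σ T R : Type} [Fintype T] [CommRing R] (u : T → σ →₀ ℕ) :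
    (T → R) →+ MvPolynomial σ R where
  toFun := fun c => ∑ t : T, MvPolynomial.monomial (u t) (c t)
  map_zero' := by simp
  map_add' := by
    intro c c'
    simp only [Pi.add_apply, map_add, Finset.sum_add_distrib]

lemma polH_apply {σ T R : Type} [Fintype T] [CommRing R] (u : T → σ →₀ ℕ) (c : T → R) :
    polH u c = ∑ t : T, MvPolynomial.monomial (u t) (c t) := rfl

lemma polH_single {σ T R : Type} [Fintype T] [DecidableEq T] [CommRing R] (u : T → σ →₀ ℕ)
    (t : T) (x : R) : polH u (Pi.single t x) = MvPolynomial.monomial (u t) x := by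
  rw [polH_apply, Finset.sum_eq_single t]
  · rw [Pi.single_eq_same]
  · intro s _ hs
    rw [Pi.single_eq_of_ne hs, map_zero]
  · intro h
    exact absurd (Finset.mem_univ t) h

/-- The polynomials over `ℤ/p` with given monomials and no smooth zero at the point `a` all of whose
coordinates are different from zero. -/
theorem alg_abs {σ T : Type} [Fintype T] (u : T → σ →₀ ℕ) (p : ℕ) [Fact p.Prime] (t1 t2 : T)
    (v1 : σ) (h1 : u t1 v1 = 0) (h2 : u t2 v1 = 1) (a : σ → ZMod p) (ha : ∀ v, a v ≠ 0) :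
    (({c : T → ZMod p | ¬ (MvPolynomial.eval a (polH u c) = 0 ∧
      ∃ j, MvPolynomial.eval a (MvPolynomial.pderiv j (polH u c)) ≠ 0)} :
      Set (T → ZMod p)).ncard : ℝ) ≤
        (1 - ((p : ℝ) - 1) / (p : ℝ) ^ 2) * (p : ℝ) ^ Fintype.card T := by
  classical
  let φ : (T → ZMod p) →+ ZMod p :=
    ((MvPolynomial.eval a).toAddMonoidHom).comp (polH u)
  let ψ : (T → ZMod p) →+ ZMod p :=
    ((MvPolynomial.eval a).toAddMonoidHom).comp
      (((MvPolynomial.pderiv (R := ZMod p) v1).toLinearMap.toAddMonoidHom).comp (polH u))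
  have hφ : ∀ c, φ c = MvPolynomial.eval a (polH u c) := fun c => rfl
  have hψ : ∀ c, ψ c = MvPolynomial.eval a (MvPolynomial.pderiv v1 (polH u c)) :=
    fun c => rfl
  have hprod : ∀ m : σ →₀ ℕ, (m.prod fun w e => a w ^ e) ≠ 0 := by
    intro m
    rw [Finsupp.prod, Finset.prod_ne_zero_iff]
    exact fun w _ => pow_ne_zero _ (ha w)
  obtain ⟨A1, hA1, p1⟩ : ∃ A1 : ZMod p, A1 ≠ 0 ∧ ∀ x, φ (Pi.single t1 x) = x * A1 :=
    ⟨_, hprod (u t1), fun x => by rw [hφ, polH_single, MvPolynomial.eval_monomial]⟩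
  obtain ⟨A2, p2⟩ : ∃ A2 : ZMod p, ∀ x, φ (Pi.single t2 x) = x * A2 :=
    ⟨_, fun x => by rw [hφ, polH_single, MvPolynomial.eval_monomial]⟩
  have q1 : ∀ x, ψ (Pi.single t1 x) = 0 := by
    intro x
    rw [hψ, polH_single, MvPolynomial.pderiv_monomial, h1]
    simp
  obtain ⟨A3, hA3, q2⟩ : ∃ A3 : ZMod p, A3 ≠ 0 ∧ ∀ x, ψ (Pi.single t2 x) = x * A3 := by
    refine ⟨_, hprod (u t2 - Finsupp.single v1 1), fun x => ?_⟩
    rw [hψ, polH_single, MvPolynomial.pderiv_monomial, h2, MvPolynomial.eval_monomial]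
    simp
  refine fib_count p φ ψ ?_ _ ?_
  · intro x y
    refine ⟨Pi.single t1 ((x - y / A3 * A2) / A1) + Pi.single t2 (y / A3), ?_, ?_⟩
    · rw [map_add, p1, p2, div_mul_cancel₀ _ hA1]
      ring
    · rw [map_add, q1, q2, zero_add, div_mul_cancel₀ _ hA3]
  · intro c hc hcon
    exact hc ⟨hcon.1, v1, hcon.2⟩

section
variable {r : ℕ} {n d : Fin r → ℕ}

/-- two monomials -/
theorem two_mons (b : Fin r) (hn : 1 ≤ n b) (hd : 1 ≤ d b) :
    ∃ (m1 m2 : Var n →₀ ℕ) (v1 : Var n), m1 ∈ monsM n d ∧ m2 ∈ monsM n d ∧ m1 v1 = 0 ∧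
      m2 v1 = 1 := by
  classical
  let v0 : Var n := ⟨b, 0⟩
  let v1 : Var n := ⟨b, ⟨1, by omega⟩⟩
  have hv : v1 ≠ v0 := by
    intro h
    have h1 : (⟨1, by omega⟩ : Fin (n b + 1)) = 0 := eq_of_heq (Sigma.mk.inj h).2
    have := congrArg Fin.val h1
    simp at this
  obtain ⟨m1, hm1⟩ : ∃ m1 : Var n →₀ ℕ, ∀ w : Var n, m1 w = if w.2 = 0 then d w.1 else 0 :=
    ⟨Finsupp.equivFunOnFinite.symm fun w => if w.2 = 0 then d w.1 else 0, fun w => rfl⟩
  obtain ⟨m2, hm2⟩ : ∃ m2 : Var n →₀ ℕ, m2 = (m1 - Finsupp.single v0 1) + Finsupp.single v1 1 :=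
    ⟨_, rfl⟩
  have hm10 : m1 v0 = d b := by rw [hm1]; simp [v0]
  have hm11 : m1 v1 = 0 := by
    rw [hm1, if_neg]
    intro h
    have := congrArg Fin.val h
    simp [v1] at this
  have hle : Finsupp.single v0 1 ≤ m1 := by
    rw [Finsupp.single_le_iff, hm10]
    exact hd
  have hm2' : m2 + Finsupp.single v0 1 = m1 + Finsupp.single v1 1 := by
    rw [hm2, add_right_comm, tsub_add_cancel_of_le hle]
  have s1 : m1 ∈ monsM n d := by
    rw [Pool.Agent.Y716.M.mem_monsM]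
    intro i
    rw [Finset.sum_congr rfl (fun j _ => hm1 ⟨i, j⟩)]
    simp only
    rw [Finset.sum_ite_eq' Finset.univ (0 : Fin (n i + 1)) (fun _ => d i)]
    simp
  have hsing : ∀ (i : Fin r) (w : Var n), ∑ j : Fin (n i + 1),
      (Finsupp.single w 1 : Var n →₀ ℕ) ⟨i, j⟩ = if w.1 = i then 1 else 0 := by
    rintro i ⟨i', j'⟩
    by_cases h : i' = i
    · subst h
      rw [if_pos rfl, Finset.sum_eq_single j']
      · simp
      · intro j _ hj
        rw [Finsupp.single_apply, if_neg]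
        intro h
        exact hj (eq_of_heq (Sigma.mk.inj h).2).symm
      · intro h
        exact absurd (Finset.mem_univ _) h
    · rw [if_neg h]
      refine Finset.sum_eq_zero fun j _ => ?_
      rw [Finsupp.single_apply, if_neg]
      intro h'
      exact h (Sigma.mk.inj h').1
  have s2 : m2 ∈ monsM n d := by
    rw [Pool.Agent.Y716.M.mem_monsM]
    intro i
    have h1 : ∑ j : Fin (n i + 1), (m2 + Finsupp.single v0 1 : Var n →₀ ℕ) ⟨i, j⟩ =
        ∑ j : Fin (n i + 1), (m1 + Finsupp.single v1 1 : Var n →₀ ℕ) ⟨i, j⟩ := by rw [hm2']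
    simp only [Finsupp.add_apply, Finset.sum_add_distrib, hsing] at h1
    have h2 := Pool.Agent.Y716.M.mem_monsM.1 s1 i
    have h3 : v0.1 = v1.1 := rfl
    rw [h3] at h1
    omega
  have hm21 : m2 v1 = 1 := by
    rw [hm2, Finsupp.add_apply, Finsupp.tsub_apply, hm11, Finsupp.single_eq_same]
    omega
  exact ⟨m1, m2, v1, s1, s2, hm11, hm21⟩

/-- The forms of multidegree `d` over `ℤ/p` with no smooth zero at the point `a` all of whose
coordinates are different from zero. -/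
theorem alg (p : ℕ) [Fact p.Prime] (b : Fin r) (hn : 1 ≤ n b) (hd : 1 ≤ d b)
    (a : Var n → ZMod p) (ha : ∀ v, a v ≠ 0) :
    (({c : monsM n d → ZMod p | ¬ (MvPolynomial.eval a (pol c) = 0 ∧
      ∃ j, MvPolynomial.eval a (MvPolynomial.pderiv j (pol c)) ≠ 0)} :
      Set (monsM n d → ZMod p)).ncard : ℝ) ≤
        (1 - ((p : ℝ) - 1) / (p : ℝ) ^ 2) * (p : ℝ) ^ Fintype.card (monsM n d) := by
  obtain ⟨m1, m2, v1, s1, s2, h1, h2⟩ := two_mons (n := n) (d := d) b hn hd
  have h := alg_abs (fun t : monsM n d => (t : Var n →₀ ℕ)) p ⟨m1, s1⟩ ⟨m2, s2⟩ v1 h1 h2 a ha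
  simp only [polH_apply] at h
  unfold pol
  exact h

theorem den1 (b : Fin r) (hn : 1 ≤ n b) (hd : 1 ≤ d b) (A : Finset ℕ)
    (hA : ∀ p ∈ A, p.Prime) (a : ℕ → Var n → ℤ) (ha : ∀ p ∈ A, ∀ i, ¬ (p : ℤ) ∣ a p i)
    (ε : ℝ) (hε : 0 < ε) :
    ∃ H₀ : ℕ, ∀ H : ℕ, H₀ ≤ H →
      (({f | f ∈ FmV n d H ∧ ∀ p ∈ A, ¬ TestV f p (a p)} : Set _).ncard : ℝ) ≤
        (∏ p ∈ A, (1 - ((p : ℝ) - 1) / (p : ℝ) ^ 2) + ε) * ((FmV n d H).ncard : ℝ) := by
  classical
  obtain ⟨H₀, hH₀⟩ := Pool.Agent.Y297.HB.t_BOX (monsM n d) A hA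
    (fun p => {c : monsM n d → ZMod p |
      ¬ (MvPolynomial.eval (fun i => (a p i : ZMod p)) (pol c) = 0 ∧
      ∃ j, MvPolynomial.eval (fun i => (a p i : ZMod p))
        (MvPolynomial.pderiv j (pol c)) ≠ 0)})
    (fun p => 1 - ((p : ℝ) - 1) / (p : ℝ) ^ 2)
    (fun p hp => by
      have : Fact p.Prime := ⟨hA p hp⟩
      refine alg p b hn hd (fun i => (a p i : ZMod p)) fun i h0 => ?_
      exact ha p hp i ((CharP.intCast_eq_zero_iff (ZMod p) p _).1 h0)) ε hε
  refine ⟨H₀, fun H hH => ?_⟩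
  refine le_trans ?_ (le_trans (hH₀ H hH) (le_of_eq (by rw [Fm_card])))
  have hsub : {f | f ∈ FmV n d H ∧ ∀ p ∈ A, ¬ TestV f p (a p)} ⊆
      pol '' {c : monsM n d → ℤ | (∀ t, |c t| ≤ (H : ℤ)) ∧ ∀ p ∈ A, (fun t => (c t : ZMod p)) ∈
        {c : monsM n d → ZMod p |
          ¬ (MvPolynomial.eval (fun i => (a p i : ZMod p)) (pol c) = 0 ∧
          ∃ j, MvPolynomial.eval (fun i => (a p i : ZMod p))
            (MvPolynomial.pderiv j (pol c)) ≠ 0)}} := by
    rintro f ⟨hf, hT⟩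
    rw [Fm_eq] at hf
    obtain ⟨c, hc, rfl⟩ := hf
    refine ⟨c, ⟨hc, fun p hp => ?_⟩, rfl⟩
    intro hcon
    exact hT p hp ((test_iff p c (a p)).2 hcon)
  have hfin : {c : monsM n d → ℤ | (∀ t, |c t| ≤ (H : ℤ)) ∧
        ∀ p ∈ A, (fun t => (c t : ZMod p)) ∈
        {c : monsM n d → ZMod p |
          ¬ (MvPolynomial.eval (fun i => (a p i : ZMod p)) (pol c) = 0 ∧
          ∃ j, MvPolynomial.eval (fun i => (a p i : ZMod p))
            (MvPolynomial.pderiv j (pol c)) ≠ 0)}}.Finite :=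
    (box_fin n d H).subset fun c hc => hc.1
  have h3 := Set.ncard_le_ncard hsub (hfin.image _)
  rw [Set.ncard_image_of_injective _ pol_inj] at h3
  exact_mod_cast h3

theorem denV (b : Fin r) (hn : 1 ≤ n b) (hd : 1 ≤ d b) (L : Set ℕ)
    (hL : ∀ p ∈ L, p.Prime) (hD : Dv L) (a : ℕ → Var n → ℤ)
    (ha : ∀ p ∈ L, ∀ i, ¬ (p : ℤ) ∣ a p i) (ε : ℝ) (hε : 0 < ε) (m : ℕ) :
    ∃ M H₀ : ℕ, m ≤ M ∧ ∀ H : ℕ, H₀ ≤ H →
      (({f | f ∈ FmV n d H ∧ ∀ p ∈ L, m < p → p ≤ M → ¬ TestV f p (a p)} : Set _).ncard : ℝ) ≤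
        ε * ((FmV n d H).ncard : ℝ) := by
  obtain ⟨A, hA, hP⟩ := Pool.Agent.Y96.HB.t_PROD L hL hD (ε / 2) (by positivity) m
  obtain ⟨H₀, hH⟩ := den1 b hn hd A (fun p hp => hL p (hA p hp).1) a
    (fun p hp => ha p (hA p hp).1) (ε / 2) (by positivity)
  refine ⟨max m (A.sup id), H₀, le_max_left _ _, fun H hHH => ?_⟩
  have h3 : (({f | f ∈ FmV n d H ∧ ∀ p ∈ L, m < p → p ≤ max m (A.sup id) →
      ¬ TestV f p (a p)} : Set _).ncard : ℝ) ≤
      (({f | f ∈ FmV n d H ∧ ∀ p ∈ A, ¬ TestV f p (a p)} : Set _).ncard : ℝ) := by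
    have : ({f | f ∈ FmV n d H ∧ ∀ p ∈ L, m < p → p ≤ max m (A.sup id) → ¬ TestV f p (a p)} :
      Set (MvPolynomial (Var n) ℤ)).ncard ≤
        ({f | f ∈ FmV n d H ∧ ∀ p ∈ A, ¬ TestV f p (a p)} : Set _).ncard := by
      refine Set.ncard_le_ncard ?_ ((Fm_fin n d H).subset fun f hf => hf.1)
      rintro f ⟨hf, hf2⟩
      refine ⟨hf, fun p hp => hf2 p (hA p hp).1 (hA p hp).2 ?_⟩
      exact (Finset.le_sup (f := id) hp).trans (le_max_right _ _)
    exact_mod_cast this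
  refine h3.trans ((hH H hHH).trans ?_)
  have h4 : (0:ℝ) ≤ ((FmV n d H).ncard : ℝ) := by positivity
  refine mul_le_mul_of_nonneg_right ?_ h4
  linarith

end

end Pool.Agent.K3h37.RP
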