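import Pool.Agent.K3h37.RP.Trans
import Pool.Agent.K3h37.RP.Den
import Pool.Agent.Y716.M.WADefs
import Pool.Agent.Y362.MH.Norm

/-!
# From weak approximation and tests to rational points outside a cover, products of
projective spaces
-/

set_option autoImplicit false

namespace Pool.Agent.K3h37.RP

open Polynomial
open Pool.Agent.Y716.M (Var monsM bl WeakApproxM)

/-- weak approximation to precision `1 / m` by points `x` such that `P(x, w)` has no rational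
root `w` -/
def WAPV {r : ℕ} {n : Fin r → ℕ} (m : ℕ) (f : MvPolynomial (Var n) ℤ)
    (P : (MvPolynomial (Var n) ℤ)[X]) : Prop :=
  ∀ (z : ∀ (p : ℕ) [Fact p.Prime], Var n → ℚ_[p]) (y : Var n → ℝ),
    (∀ (p : ℕ) [Fact p.Prime], (∀ i : Fin r, bl (z p) i ≠ 0) ∧
      MvPolynomial.aeval (z p) f = 0) →
    (∀ i : Fin r, bl y i ≠ 0) → MvPolynomial.aeval y f = 0 →
    ∃ x : Var n → ℚ, (∀ i : Fin r, bl x i ≠ 0) ∧ MvPolynomial.aeval x f = 0 ∧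
      (∀ (p : ℕ) [Fact p.Prime], p ≤ m → ∀ i : Fin r, ∃ c : ℚ_[p], c ≠ 0 ∧
        ∀ j, ‖z p ⟨i, j⟩ - c * (x ⟨i, j⟩ : ℚ_[p])‖ ≤ ‖bl (z p) i‖ / m) ∧
      (∀ i : Fin r, ∃ c : ℝ, c ≠ 0 ∧ ∀ j, |y ⟨i, j⟩ - c * (x ⟨i, j⟩ : ℝ)| ≤ ‖bl y i‖ / m) ∧
      ∀ w : ℚ, (P.map (evV x)).eval w ≠ 0

/-- `f` passes the tests at distinct primes between `m` and `M` for factors of `P` -/
def TestedV {σ : Type} (m M : ℕ) (f : MvPolynomial σ ℤ) (P : (MvPolynomial σ ℤ)[X]) : Prop :=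
  ∃ (k : ℕ) (Q : Fin k → (MvPolynomial σ ℤ)[X]) (c : MvPolynomial σ ℤ)
    (l : Fin k → ℕ) (a : Fin k → σ → ℤ), C c * P = ∏ i, Q i ∧
    Function.Injective l ∧ ∀ i, (l i).Prime ∧ m < l i ∧ l i ≤ M ∧ ObsV (Q i) (l i) (a i) ∧
      (∀ j, ¬ (l i : ℤ) ∣ a i j) ∧ TestV f (l i) (a i)

/-- the conditions on the new local point -/
def CdV {r k : ℕ} {n : Fin r → ℕ} (f : MvPolynomial (Var n) ℤ) (l : Fin k → ℕ)
    (a : Fin k → Var n → ℤ) (p : ℕ) [Fact p.Prime] (v : Var n → ℚ_[p]) : Prop :=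
  (∀ i : Fin r, bl v i ≠ 0) ∧ MvPolynomial.aeval v f = 0 ∧ ‖v‖ ≤ 1 ∧
    ∀ i, l i = p → ∀ j, ‖v j - (a i j : ℚ_[p])‖ < 1

theorem three {p : ℕ} [Fact p.Prime] {u v w : ℚ_[p]} (hu : ‖u‖ < 1) (hv : ‖v‖ < 1)
    (hw : ‖w‖ < 1) : ‖u + v + w‖ < 1 := by
  refine lt_of_le_of_lt (IsUltrametricDist.norm_add_le_max _ _) (max_lt ?_ hw)
  exact lt_of_le_of_lt (IsUltrametricDist.norm_add_le_max _ _) (max_lt hu hv)

theorem norm_bl_le {r : ℕ} {n : Fin r → ℕ} {p : ℕ} [Fact p.Prime] (v : Var n → ℚ_[p])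
    (i : Fin r) (h : ‖v‖ ≤ 1) : ‖bl v i‖ ≤ 1 := by
  rw [pi_norm_le_iff_of_nonneg zero_le_one]
  intro j
  exact (norm_le_pi_norm v ⟨i, j⟩).trans h

theorem fixV {r : ℕ} {n d : Fin r → ℕ} (m M : ℕ) (f : MvPolynomial (Var n) ℤ)
    (P : (MvPolynomial (Var n) ℤ)[X]) (hm : 1 ≤ m) (hmM : m ≤ M) (hM : 2 ≤ M)
    (hf : ∀ s ∈ f.support, ∀ i : Fin r, ∑ j : Fin (n i + 1), s ⟨i, j⟩ = d i)
    (hWA : WeakApproxM M f) (hT : TestedV m M f P) : WAPV m f P := by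
  classical
  intro z y hz hy hyf
  obtain ⟨k, Q, c, l, a, hcP, hinj, hl⟩ := hT
  have hFact : ∀ i, Fact (l i).Prime := fun i => ⟨(hl i).1⟩
  have hmR : (0 : ℝ) < m := by exact_mod_cast hm
  have hMR : (2 : ℝ) ≤ M := by exact_mod_cast hM
  have hmMR : (m : ℝ) ≤ M := by exact_mod_cast hmM
  -- the new local points
  let z' : ∀ (p : ℕ) [Fact p.Prime], Var n → ℚ_[p] := fun p _ =>
    if h : (∃ i, l i = p) ∧ ∃ v : Var n → ℚ_[p], CdV f l a p v then h.2.choose else z p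
  have hz'1 : ∀ (p : ℕ) [Fact p.Prime], (¬ ∃ i, l i = p) → z' p = z p := by
    intro p _ h
    exact dif_neg fun h' => h h'.1
  have hz'2 : ∀ i, CdV f l a (l i) (z' (l i)) := by
    intro i
    have hex : (∃ j, l j = l i) ∧ ∃ v : Var n → ℚ_[l i], CdV f l a (l i) v := by
      refine ⟨⟨i, rfl⟩, ?_⟩
      obtain ⟨v, hv2, hv3, hv4⟩ := hen f (l i) (a i) (hl i).2.2.2.2.2
      refine ⟨v, fun b hb => ?_, hv2, hv3, fun j hj s => ?_⟩
      · have e1 := hv4 ⟨b, 0⟩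
        have e2 : v ⟨b, 0⟩ = 0 := congrFun hb 0
        rw [e2, zero_sub, norm_neg] at e1
        exact (hl i).2.2.2.2.1 ⟨b, 0⟩ (Padic.norm_intCast_lt_one_iff.1 e1)
      · rw [hinj hj]
        exact hv4 s
    have e : z' (l i) = hex.2.choose := dif_pos hex
    rw [e]
    exact hex.2.choose_spec
  have hz' : ∀ (p : ℕ) [Fact p.Prime], (∀ i : Fin r, bl (z' p) i ≠ 0) ∧
      MvPolynomial.aeval (z' p) f = 0 := by
    intro p _
    by_cases h : (∃ i, l i = p) ∧ ∃ v : Var n → ℚ_[p], CdV f l a p v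
    · have e : z' p = h.2.choose := dif_pos h
      rw [e]
      exact ⟨h.2.choose_spec.1, h.2.choose_spec.2.1⟩
    · have e : z' p = z p := dif_neg h
      rw [e]
      exact hz p
  obtain ⟨x, hx0, hxf, hxp, hxr⟩ := hWA z' y hz' hy hyf
  choose cr hcr0 hcr using hxr
  let cp : ∀ (b : Fin r) (p : ℕ) [Fact p.Prime], ℚ_[p] := fun b p _ =>
    if h : p ≤ M then (hxp p h b).choose else 0
  have hcp : ∀ (b : Fin r) (p : ℕ) [Fact p.Prime], p ≤ M → cp b p ≠ 0 ∧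
      ∀ j, ‖z' p ⟨b, j⟩ - cp b p * (x ⟨b, j⟩ : ℚ_[p])‖ ≤ ‖bl (z' p) b‖ / M := by
    intro b p _ h
    have e : cp b p = (hxp p h b).choose := dif_pos h
    rw [e]
    exact (hxp p h b).choose_spec
  -- the common scalars
  obtain ⟨B, hB⟩ : ∃ B : Fin k → ℝ, ∀ i, B i = ∑ j, ‖((x j : ℚ) : ℚ_[l i])‖ := ⟨_, fun _ => rfl⟩
  have hB0 : ∀ i, 0 ≤ B i := fun i => by
    rw [hB]
    exact Finset.sum_nonneg fun j _ => norm_nonneg _
  have hS0 : 0 ≤ ∑ i, B i := Finset.sum_nonneg fun i _ => hB0 i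
  have hsc := fun b : Fin r => Pool.Agent.Y420.HB.t_SCL (Finset.univ.image l) (cp b)
    (1 / (1 + ∑ i, B i)) (by positivity)
  choose c0 hc0 hc0p using hsc
  have hnear : ∀ i, ∀ j : Var n, ‖((c0 j.1 * x j : ℚ) : ℚ_[l i]) - (a i j : ℚ_[l i])‖ < 1 := by
    rintro i ⟨b, j⟩
    have e1 := hc0p b (l i) (Finset.mem_image_of_mem l (Finset.mem_univ i))
    have e2 : ‖((x ⟨b, j⟩ : ℚ) : ℚ_[l i])‖ ≤ ∑ i, B i := by
      calc ‖((x ⟨b, j⟩ : ℚ) : ℚ_[l i])‖ ≤ B i := by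
            rw [hB]
            exact Finset.single_le_sum (f := fun j : Var n => ‖((x j : ℚ) : ℚ_[l i])‖)
              (fun j _ => norm_nonneg _) (Finset.mem_univ (⟨b, j⟩ : Var n))
        _ ≤ ∑ i, B i := Finset.single_le_sum (fun i _ => hB0 i) (Finset.mem_univ i)
    have e3 : ‖((c0 b : ℚ_[l i]) - cp b (l i)) * (x ⟨b, j⟩ : ℚ_[l i])‖ < 1 := by
      rw [norm_mul]
      calc ‖(c0 b : ℚ_[l i]) - cp b (l i)‖ * ‖(x ⟨b, j⟩ : ℚ_[l i])‖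
          ≤ 1 / (1 + ∑ i, B i) * ∑ i, B i := mul_le_mul e1 e2 (norm_nonneg _) (by positivity)
        _ < 1 := by
            rw [div_mul_eq_mul_div, one_mul, div_lt_one (by positivity)]
            linarith
    have e4 : ‖cp b (l i) * (x ⟨b, j⟩ : ℚ_[l i]) - z' (l i) ⟨b, j⟩‖ < 1 := by
      rw [norm_sub_rev]
      refine lt_of_le_of_lt ((hcp b (l i) (hl i).2.2.1).2 j) ?_
      rw [div_lt_one (by linarith)]
      have := norm_bl_le (z' (l i)) b (hz'2 i).2.2.1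
      linarith
    have e5 := (hz'2 i).2.2.2 i rfl ⟨b, j⟩
    have e6 : ((c0 b * x ⟨b, j⟩ : ℚ) : ℚ_[l i]) - (a i ⟨b, j⟩ : ℚ_[l i]) =
        ((c0 b : ℚ_[l i]) - cp b (l i)) * (x ⟨b, j⟩ : ℚ_[l i]) +
          (cp b (l i) * (x ⟨b, j⟩ : ℚ_[l i]) - z' (l i) ⟨b, j⟩) +
            (z' (l i) ⟨b, j⟩ - (a i ⟨b, j⟩ : ℚ_[l i])) := by
      push_cast
      ring
    show ‖((c0 b * x ⟨b, j⟩ : ℚ) : ℚ_[l i]) - (a i ⟨b, j⟩ : ℚ_[l i])‖ < 1
    rw [e6]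
    exact three e3 e4 e5
  refine ⟨fun j => c0 j.1 * x j, ?_, ?_, ?_, ?_, ?_⟩
  · intro b h
    apply hx0 b
    funext j
    exact (mul_eq_zero.1 (congrFun h j)).resolve_left (hc0 b)
  · rw [Pool.Agent.Y362.MH.aeval_block f hf c0 x, hxf, mul_zero]
  · intro p _ hp b
    obtain ⟨e1, e2⟩ := hcp b p (hp.trans hmM)
    have hc0' : (c0 b : ℚ_[p]) ≠ 0 := by exact_mod_cast hc0 b
    have e3 : z' p = z p := hz'1 p fun ⟨i, hi⟩ => by
      have := (hl i).2.1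
      omega
    refine ⟨cp b p / c0 b, div_ne_zero e1 hc0', fun j => ?_⟩
    have e4 : cp b p / (c0 b : ℚ_[p]) * ((c0 b * x ⟨b, j⟩ : ℚ) : ℚ_[p]) =
        cp b p * (x ⟨b, j⟩ : ℚ_[p]) := by
      push_cast
      field_simp
    show ‖z p ⟨b, j⟩ - cp b p / (c0 b : ℚ_[p]) * ((c0 b * x ⟨b, j⟩ : ℚ) : ℚ_[p])‖ ≤ _
    rw [e4, ← e3]
    exact (e2 j).trans (div_le_div_of_nonneg_left (norm_nonneg _) hmR hmMR)
  · intro b
    have hc0' : (c0 b : ℝ) ≠ 0 := by exact_mod_cast hc0 b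
    refine ⟨cr b / c0 b, div_ne_zero (hcr0 b) hc0', fun j => ?_⟩
    have e4 : cr b / (c0 b : ℝ) * ((c0 b * x ⟨b, j⟩ : ℚ) : ℝ) = cr b * (x ⟨b, j⟩ : ℝ) := by
      push_cast
      field_simp
    show |y ⟨b, j⟩ - cr b / (c0 b : ℝ) * ((c0 b * x ⟨b, j⟩ : ℚ) : ℝ)| ≤ _
    rw [e4]
    exact (hcr b j).trans (div_le_div_of_nonneg_left (norm_nonneg _) hmR hmMR)
  · intro w hw
    have e : ((C c * P).map (evV fun j => c0 j.1 * x j)).eval w = 0 := by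
      rw [Polynomial.map_mul, eval_mul, hw, mul_zero]
    rw [hcP, Polynomial.map_prod, eval_prod, Finset.prod_eq_zero_iff] at e
    obtain ⟨i, -, hi⟩ := e
    exact loc (Q i) (l i) (a i) (hl i).2.2.2.1 (fun j => c0 j.1 * x j) (hnear i) w hi

end Pool.Agent.K3h37.RP
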