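import Pool.Agent.Y214.HB.Main

/-!
# Rational points of random hypersurfaces in products outside thin sets: local conditions

General index types; port of the projective case (`Y214.HB`, `Y420.HB`, `Y70.HB`).
-/

set_option autoImplicit false

namespace Pool.Agent.K3h37.RP

open Polynomial Filter
open Pool.Agent.Y214.HB (Dv)

/-- `a` is a smooth zero of `f` modulo `p` -/
def TestV {σ : Type} (f : MvPolynomial σ ℤ) (p : ℕ) (a : σ → ℤ) : Prop :=
  (p : ℤ) ∣ MvPolynomial.eval a f ∧ ∃ j, ¬ (p : ℤ) ∣ MvPolynomial.eval a (MvPolynomial.pderiv j f)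

/-- modulo `p` the polynomial `P(a, w)` keeps its degree and has no root -/
def ObsV {σ : Type} (P : (MvPolynomial σ ℤ)[X]) (p : ℕ) (a : σ → ℤ) : Prop :=
  ¬ (p : ℤ) ∣ MvPolynomial.eval a P.leadingCoeff ∧
    ∀ w : ℤ, ¬ (p : ℤ) ∣ (P.map (MvPolynomial.eval a)).eval w

/-- evaluation at a rational vector -/
noncomputable def evV {σ : Type} (x : σ → ℚ) : MvPolynomial σ ℤ →+* ℚ :=
  MvPolynomial.eval₂Hom (Int.castRingHom ℚ) x

/-- many primes obstruct `P` at vectors without coordinates divisible by the prime -/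
def BaseV {σ : Type} (P : (MvPolynomial σ ℤ)[X]) : Prop :=
  Dv {p : ℕ | p.Prime ∧ ∃ a : σ → ℤ, (∀ i, ¬ (p : ℤ) ∣ a i) ∧ ObsV P p a}

/-! ## Local obstruction -/

theorem loc {σ : Type} (P : (MvPolynomial σ ℤ)[X]) (p : ℕ) [Fact p.Prime]
    (a : σ → ℤ) (hobs : ObsV P p a) (x : σ → ℚ)
    (hx : ∀ i, ‖(x i : ℚ_[p]) - (a i : ℚ_[p])‖ < 1) (w : ℚ) : (P.map (evV x)).eval w ≠ 0 := by
  intro hw
  obtain ⟨hlc, hno⟩ := hobs
  have hxn : ∀ i, ‖(x i : ℚ_[p])‖ ≤ 1 := by
    intro i
    have h1 : (x i : ℚ_[p]) = ((x i : ℚ_[p]) - (a i : ℚ_[p])) + (a i : ℚ_[p]) := by ring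
    rw [h1]
    exact (Padic.nonarchimedean _ _).trans
      (max_le (hx i).le (Padic.norm_int_le_one (a i)))
  let X' : σ → ℤ_[p] := fun i => ⟨(x i : ℚ_[p]), hxn i⟩
  let φ : MvPolynomial σ ℤ →+* ℤ_[p] :=
    MvPolynomial.eval₂Hom (Int.castRingHom ℤ_[p]) X'
  have h1 : (algebraMap ℤ_[p] ℚ_[p]).comp φ = (algebraMap ℚ ℚ_[p]).comp (evV x) := by
    apply MvPolynomial.ringHom_ext
    · intro c
      simp [φ, evV]
    · intro i
      simp only [φ, evV, RingHom.comp_apply, MvPolynomial.coe_eval₂Hom, MvPolynomial.eval₂_X]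
      rfl
  have h2 : (PadicInt.toZMod (p := p)).comp φ =
      (Int.castRingHom (ZMod p)).comp (MvPolynomial.eval a) := by
    apply MvPolynomial.ringHom_ext
    · intro c
      simp [φ]
    · intro i
      simp only [φ, RingHom.comp_apply, MvPolynomial.coe_eval₂Hom, MvPolynomial.eval₂_X,
        MvPolynomial.eval_X, eq_intCast]
      have h3 : X' i - (a i : ℤ_[p]) ∈ RingHom.ker (PadicInt.toZMod (p := p)) := by
        rw [PadicInt.ker_toZMod, IsLocalRing.mem_maximalIdeal, PadicInt.mem_nonunits]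
        exact hx i
      rw [RingHom.mem_ker, map_sub, map_intCast, sub_eq_zero] at h3
      exact h3
  have hlc2 : PadicInt.toZMod (p := p) (φ P.leadingCoeff) ≠ 0 := by
    have h3 := RingHom.congr_fun h2 P.leadingCoeff
    rw [RingHom.comp_apply, RingHom.comp_apply] at h3
    rw [h3]
    intro h4
    apply hlc
    exact (ZMod.intCast_zmod_eq_zero_iff_dvd _ _).1 h4
  have hlc3 : φ P.leadingCoeff ≠ 0 := fun h => hlc2 (by rw [h, map_zero])
  have hun : IsUnit (φ P.leadingCoeff) := by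
    by_contra hnu
    have h3 : φ P.leadingCoeff ∈ IsLocalRing.maximalIdeal ℤ_[p] := hnu
    rw [← PadicInt.ker_toZMod] at h3
    exact hlc2 h3
  obtain ⟨u, hu⟩ := hun
  let g : ℤ_[p][X] := P.map φ
  have hgl : g.leadingCoeff = φ P.leadingCoeff :=
    leadingCoeff_map_of_leadingCoeff_ne_zero φ hlc3
  have hmon : (C ((u⁻¹ : (ℤ_[p])ˣ) : ℤ_[p]) * g).Monic := by
    apply monic_C_mul_of_mul_leadingCoeff_eq_one
    rw [hgl, ← hu, Units.inv_mul]
  have hroot : aeval (w : ℚ_[p]) g = 0 := by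
    rw [aeval_def, eval₂_map, h1, ← eval₂_map]
    have h3 : (w : ℚ_[p]) = algebraMap ℚ ℚ_[p] w := by simp
    rw [h3, eval₂_at_apply, hw, map_zero]
  have hroot2 : aeval (w : ℚ_[p]) (C ((u⁻¹ : (ℤ_[p])ˣ) : ℤ_[p]) * g) = 0 := by
    rw [map_mul, hroot, mul_zero]
  obtain ⟨W, hW⟩ := isInteger_of_is_root_of_monic hmon hroot2
  have hgW : g.eval W = 0 := by
    apply IsFractionRing.injective ℤ_[p] ℚ_[p]
    rw [map_zero, ← hroot, ← hW, aeval_algebraMap_apply, coe_aeval_eq_eval]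
  have h5 : (P.map ((Int.castRingHom (ZMod p)).comp (MvPolynomial.eval a))).eval
      (PadicInt.toZMod (p := p) W) = 0 := by
    rw [← h2, ← Polynomial.map_map, eval_map_apply, hgW, map_zero]
  rw [← Polynomial.map_map] at h5
  obtain ⟨w0, hw0⟩ := ZMod.intCast_surjective (PadicInt.toZMod (p := p) W)
  have h6 : (Int.castRingHom (ZMod p)) w0 = PadicInt.toZMod (p := p) W := hw0
  rw [← h6, eval_map_apply] at h5
  exact hno w0 ((ZMod.intCast_zmod_eq_zero_iff_dvd _ _).1 h5)

/-! ## Hensel lifting -/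

theorem deriv_aeval {σ : Type} [DecidableEq σ] (a : σ → ℤ) (j : σ) (f : MvPolynomial σ ℤ) :
    derivative (MvPolynomial.aeval (Function.update (fun i => (C (a i) : ℤ[X])) j X) f) =
      MvPolynomial.aeval (Function.update (fun i => (C (a i) : ℤ[X])) j X)
        (MvPolynomial.pderiv j f) := by
  classical
  induction f using MvPolynomial.induction_on with
  | C r =>
    rw [MvPolynomial.pderiv_C, map_zero, MvPolynomial.aeval_C]
    exact derivative_C
  | add p q hp hq => rw [map_add, map_add, map_add, map_add, hp, hq]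
  | mul_X p i hp =>
    rw [map_mul, derivative_mul, hp, Derivation.leibniz, map_add, smul_eq_mul, smul_eq_mul, map_mul,
      map_mul, MvPolynomial.aeval_X, MvPolynomial.pderiv_X]
    by_cases hij : i = j
    · subst hij
      rw [Function.update_self, derivative_X, Pi.single_eq_same, map_one]
      ring
    · rw [Function.update_of_ne hij, derivative_C, Pi.single_eq_of_ne hij, map_zero]
      ring

theorem aeval_cast {σ : Type} {B : Type} [CommRing B] (a : σ → ℤ) (f : MvPolynomial σ ℤ) :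
    MvPolynomial.aeval (fun i => ((a i : ℤ) : B)) f = ((MvPolynomial.eval a f : ℤ) : B) := by
  have h := MvPolynomial.comp_aeval_apply a (Algebra.ofId ℤ B) f
  have h1 : (MvPolynomial.aeval a f : ℤ) = MvPolynomial.eval a f := rfl
  rw [h1] at h
  exact h.symm

theorem hen {σ : Type} [Fintype σ] (f : MvPolynomial σ ℤ) (p : ℕ) [Fact p.Prime]
    (a : σ → ℤ) (hT : TestV f p a) :
    ∃ z : σ → ℚ_[p], MvPolynomial.aeval z f = 0 ∧ ‖z‖ ≤ 1 ∧
      ∀ i, ‖z i - (a i : ℚ_[p])‖ < 1 := by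
  classical
  obtain ⟨h0, j, hj⟩ := hT
  obtain ⟨F, hF⟩ : ∃ F : ℤ[X],
      F = MvPolynomial.aeval (Function.update (fun i => (C (a i) : ℤ[X])) j X) f := ⟨_, rfl⟩
  have hev : ∀ (x : ℤ_[p]) (g : MvPolynomial σ ℤ),
      Polynomial.aeval x (MvPolynomial.aeval (Function.update (fun i => (C (a i) : ℤ[X])) j X) g) =
      MvPolynomial.aeval (Function.update (fun i => ((a i : ℤ) : ℤ_[p])) j x) g := by
    intro x g
    rw [MvPolynomial.comp_aeval_apply]
    congr 2
    funext i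
    by_cases hij : i = j
    · rw [hij, Function.update_self, Function.update_self, Polynomial.aeval_X]
    · rw [Function.update_of_ne hij, Function.update_of_ne hij, Polynomial.aeval_C]
      rfl
  have hupd : Function.update (fun i => ((a i : ℤ) : ℤ_[p])) j ((a j : ℤ) : ℤ_[p]) =
      fun i => ((a i : ℤ) : ℤ_[p]) := Function.update_eq_self j _
  have e1 : Polynomial.aeval ((a j : ℤ) : ℤ_[p]) F = ((MvPolynomial.eval a f : ℤ) : ℤ_[p]) := by
    rw [hF, hev, hupd, aeval_cast]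
  have e2 : Polynomial.aeval ((a j : ℤ) : ℤ_[p]) (derivative F) =
      ((MvPolynomial.eval a (MvPolynomial.pderiv j f) : ℤ) : ℤ_[p]) := by
    rw [hF, deriv_aeval, hev, hupd, aeval_cast]
  have n1 : ‖Polynomial.aeval ((a j : ℤ) : ℤ_[p]) F‖ < 1 := by
    rw [e1]
    exact (PadicInt.norm_int_lt_one_iff_dvd _).2 h0
  have n2 : ‖Polynomial.aeval ((a j : ℤ) : ℤ_[p]) (derivative F)‖ = 1 := by
    rw [e2]
    refine le_antisymm (PadicInt.norm_le_one _) ?_
    by_contra h
    exact hj ((PadicInt.norm_int_lt_one_iff_dvd _).1 (not_le.1 h))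
  obtain ⟨z0, hz1, hz2, -⟩ := hensels_lemma (F := F) (a := ((a j : ℤ) : ℤ_[p]))
    (by rw [n2, one_pow]; exact n1)
  rw [n2] at hz2
  rw [hF, hev] at hz1
  have hcl : ∀ i, ‖((Function.update (fun i => ((a i : ℤ) : ℤ_[p])) j z0 i : ℤ_[p]) : ℚ_[p]) -
      (a i : ℚ_[p])‖ < 1 := by
    intro i
    by_cases hij : i = j
    · rw [hij, Function.update_self]
      have h1 : ((z0 : ℤ_[p]) : ℚ_[p]) - (a j : ℚ_[p]) =
          ((z0 - ((a j : ℤ) : ℤ_[p]) : ℤ_[p]) : ℚ_[p]) := by
        push_cast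
        rfl
      rw [h1, ← PadicInt.norm_def]
      exact hz2
    · rw [Function.update_of_ne hij]
      have h1 : (((a i : ℤ) : ℤ_[p]) : ℚ_[p]) = (a i : ℚ_[p]) := PadicInt.coe_intCast _
      rw [h1, sub_self, norm_zero]
      exact one_pos
  refine ⟨fun i => ((Function.update (fun i => ((a i : ℤ) : ℤ_[p])) j z0 i : ℤ_[p]) : ℚ_[p]),
    ?_, ?_, hcl⟩
  · have h1 := MvPolynomial.comp_aeval_apply
      (Function.update (fun i => ((a i : ℤ) : ℤ_[p])) j z0)
      (PadicInt.Coe.ringHom (p := p)).toIntAlgHom f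
    rw [hz1, map_zero] at h1
    exact h1.symm
  · rw [pi_norm_le_iff_of_nonneg zero_le_one]
    intro i
    rw [← PadicInt.norm_def]
    exact PadicInt.norm_le_one _

end Pool.Agent.K3h37.RP
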