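import Pool.Agent.K3h37.RP.Loc

/-!
# Factors of covers and primes obstructing them, arbitrary finite index types
-/

set_option autoImplicit false

namespace Pool.Agent.K3h37.RP

open Polynomial Filter
open Pool.Agent.Y214.HB (Dv)

/-- no root in the field of rational functions -/
def NoRootV {σ : Type} (P : (MvPolynomial σ ℤ)[X]) : Prop :=
  ∀ r : FractionRing (MvPolynomial σ ℤ), aeval r P ≠ 0

theorem kind_mul {n : ℕ} {P : (MvPolynomial (Fin (n + 1)) ℤ)[X]}
    (hP : Pool.Agent.Y214.HB.Kind P) {g : MvPolynomial (Fin (n + 1)) ℤ} (hg : g ≠ 0) :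
    Pool.Agent.Y214.HB.Kind (C g * P) := by
  rcases hP with ⟨G, hG, rfl⟩ | ⟨h1, h2⟩
  · exact Or.inl ⟨g * G, mul_ne_zero hg hG, by rw [C_mul]⟩
  · refine Or.inr ⟨by rw [natDegree_C_mul hg]; exact h1, ?_⟩
    have h3 : Pool.Agent.Y214.HB.toK (C g * P) =
        C (algebraMap _ (FractionRing (MvPolynomial (Fin (n + 1)) ℤ)) g) *
          Pool.Agent.Y214.HB.toK P := by
      unfold Pool.Agent.Y214.HB.toK
      rw [Polynomial.map_mul, map_C]
    rw [h3]
    have h4 : IsUnit (C (algebraMap _ (FractionRing (MvPolynomial (Fin (n + 1)) ℤ)) g)) := by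
      rw [isUnit_C, isUnit_iff_ne_zero, Ne, FaithfulSMul.algebraMap_eq_zero_iff]
      exact hg
    exact (irreducible_isUnit_mul h4).2 h2

theorem base_fin {n : ℕ} (P : (MvPolynomial (Fin (n + 1)) ℤ)[X])
    (hP : Pool.Agent.Y214.HB.Kind P) : BaseV P := by
  classical
  have hg : (∏ i, MvPolynomial.X i : MvPolynomial (Fin (n + 1)) ℤ) ≠ 0 :=
    Finset.prod_ne_zero_iff.2 fun i _ => MvPolynomial.X_ne_zero i
  have h1 := Pool.Agent.Y214.HB.base n _ (kind_mul hP hg)
  intro hs
  apply h1
  refine Summable.of_nonneg_of_le (fun k => Set.indicator_nonneg (fun _ _ => by positivity) _)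
    (fun k => ?_) hs
  refine Set.indicator_le_indicator_of_subset ?_ (fun _ => by positivity) k
  rintro p ⟨hp, a, -, h2, h3⟩
  have hev : MvPolynomial.eval a (∏ i, MvPolynomial.X i : MvPolynomial (Fin (n + 1)) ℤ) =
      ∏ i, a i := by
    rw [map_prod]
    exact Finset.prod_congr rfl fun i _ => MvPolynomial.eval_X i
  rw [leadingCoeff_mul, leadingCoeff_C, map_mul, hev] at h2
  refine ⟨hp, a, fun i hi => ?_, fun h => h2 (Dvd.dvd.mul_left h _), fun w hw => ?_⟩
  · exact h2 (Dvd.dvd.mul_right (hi.trans (Finset.dvd_prod_of_mem a (Finset.mem_univ i))) _)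
  · apply h3 w
    rw [Polynomial.map_mul, eval_mul]
    exact Dvd.dvd.mul_left hw _

section
variable {σ : Type} {n : ℕ} (e : σ ≃ Fin (n + 1))

theorem base_transfer (Q : (MvPolynomial (Fin (n + 1)) ℤ)[X]) (hQ : BaseV Q) :
    BaseV (Q.map (MvPolynomial.renameEquiv ℤ e.symm).toRingEquiv.toRingHom) := by
  intro hs
  apply hQ
  refine Summable.of_nonneg_of_le (fun k => Set.indicator_nonneg (fun _ _ => by positivity) _)
    (fun k => ?_) hs
  refine Set.indicator_le_indicator_of_subset ?_ (fun _ => by positivity) k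
  rintro p ⟨hp, a, h1, h2, h3⟩
  have hev : ∀ q : MvPolynomial (Fin (n + 1)) ℤ, MvPolynomial.eval (fun s => a (e s))
      ((MvPolynomial.renameEquiv ℤ e.symm).toRingEquiv.toRingHom q) = MvPolynomial.eval a q := by
    intro q
    have h4 : (MvPolynomial.renameEquiv ℤ e.symm).toRingEquiv.toRingHom q =
        MvPolynomial.rename e.symm q := rfl
    rw [h4, MvPolynomial.eval_rename]
    congr 2
    funext i
    simp
  have hcomp : (MvPolynomial.eval (fun s => a (e s))).comp
      (MvPolynomial.renameEquiv ℤ e.symm).toRingEquiv.toRingHom = MvPolynomial.eval a :=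
    RingHom.ext hev
  refine ⟨hp, fun s => a (e s), fun s => h1 (e s), ?_, fun w => ?_⟩
  · have hinj : Function.Injective (MvPolynomial.renameEquiv ℤ e.symm).toRingEquiv.toRingHom :=
      (MvPolynomial.renameEquiv ℤ e.symm).toRingEquiv.injective
    rw [leadingCoeff_map_of_injective hinj, hev]
    exact h2
  · rw [Polynomial.map_map, hcomp]
    exact h3 w

theorem noRoot_transfer (P : (MvPolynomial σ ℤ)[X]) (hP : NoRootV P) :
    Pool.Agent.Y214.HB.NoRoot (P.map (MvPolynomial.renameEquiv ℤ e).toRingEquiv.toRingHom) := by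
  intro r hr
  have E : FractionRing (MvPolynomial σ ℤ) ≃+* FractionRing (MvPolynomial (Fin (n + 1)) ℤ) :=
    IsFractionRing.ringEquivOfRingEquiv (MvPolynomial.renameEquiv ℤ e).toRingEquiv
  obtain ⟨E, hE⟩ : ∃ E : FractionRing (MvPolynomial σ ℤ) ≃+*
      FractionRing (MvPolynomial (Fin (n + 1)) ℤ), ∀ q : MvPolynomial σ ℤ,
      E (algebraMap _ _ q) = algebraMap _ _ ((MvPolynomial.renameEquiv ℤ e).toRingEquiv q) :=
    ⟨IsFractionRing.ringEquivOfRingEquiv (MvPolynomial.renameEquiv ℤ e).toRingEquiv,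
      fun q => IsFractionRing.ringEquivOfRingEquiv_algebraMap _ q⟩
  apply hP (E.symm r)
  apply E.injective
  rw [map_zero]
  unfold Pool.Agent.Y214.HB.toK at hr
  rw [Polynomial.map_map] at hr
  have h1 : ((algebraMap (MvPolynomial (Fin (n + 1)) ℤ)
      (FractionRing (MvPolynomial (Fin (n + 1)) ℤ))).comp
        (MvPolynomial.renameEquiv ℤ e).toRingEquiv.toRingHom) =
      (E : FractionRing (MvPolynomial σ ℤ) →+* _).comp
        (algebraMap (MvPolynomial σ ℤ) (FractionRing (MvPolynomial σ ℤ))) := by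
    refine RingHom.ext fun q => ?_
    exact (hE q).symm
  rw [h1, eval_map] at hr
  rw [aeval_def]
  have h2 : E (eval₂ (algebraMap (MvPolynomial σ ℤ) (FractionRing (MvPolynomial σ ℤ)))
      (E.symm r) P) = eval₂ ((E : FractionRing (MvPolynomial σ ℤ) →+* _).comp
        (algebraMap (MvPolynomial σ ℤ) (FractionRing (MvPolynomial σ ℤ)))) (E (E.symm r)) P :=
    hom_eval₂ P (algebraMap (MvPolynomial σ ℤ) (FractionRing (MvPolynomial σ ℤ)))
      (E : FractionRing (MvPolynomial σ ℤ) →+*
        FractionRing (MvPolynomial (Fin (n + 1)) ℤ)) (E.symm r)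
  rw [h2, RingEquiv.apply_symm_apply]
  exact hr

end

/-- A polynomial without a root in the field of rational functions divides, up to a constant
factor, a product of polynomials obstructed by many primes. -/
theorem fac_base {σ : Type} [Fintype σ] [Nonempty σ] (P : (MvPolynomial σ ℤ)[X])
    (hP : NoRootV P) :
    ∃ (k : ℕ) (Q : Fin k → (MvPolynomial σ ℤ)[X]) (c : MvPolynomial σ ℤ),
      C c * P = ∏ i, Q i ∧ ∀ i, BaseV (Q i) := by
  classical
  obtain ⟨n, hn⟩ : ∃ n, Fintype.card σ = n + 1 :=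
    ⟨Fintype.card σ - 1, (Nat.succ_pred_eq_of_pos Fintype.card_pos).symm⟩
  have e : σ ≃ Fin (n + 1) := Fintype.equivFinOfCardEq hn
  obtain ⟨k, Q, c, h1, h2⟩ := Pool.Agent.Y945.HB.t_FAC n _ (noRoot_transfer e P hP)
  refine ⟨k, fun i => (Q i).map (MvPolynomial.renameEquiv ℤ e.symm).toRingEquiv.toRingHom,
    MvPolynomial.renameEquiv ℤ e.symm c, ?_, fun i => base_transfer e _ (base_fin _ (h2 i))⟩
  have h3 := congrArg (Polynomial.map
    (MvPolynomial.renameEquiv ℤ e.symm).toRingEquiv.toRingHom) h1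
  rw [Polynomial.map_prod, Polynomial.map_mul, map_C, Polynomial.map_map] at h3
  have h4 : ((MvPolynomial.renameEquiv ℤ e.symm).toRingEquiv.toRingHom).comp
      (MvPolynomial.renameEquiv ℤ e).toRingEquiv.toRingHom = RingHom.id _ := by
    refine RingHom.ext fun q => ?_
    show (MvPolynomial.renameEquiv ℤ e.symm) ((MvPolynomial.renameEquiv ℤ e) q) = q
    rw [← MvPolynomial.renameEquiv_symm]
    exact (MvPolynomial.renameEquiv ℤ e).symm_apply_apply q
  rw [h4, Polynomial.map_id] at h3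
  exact h3

end Pool.Agent.K3h37.RP
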